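import Pool.Agent.Helper24.CH.Inj

set_option autoImplicit false

open Filter Topology Set MeasureTheory

namespace Helper3.CR

/-- no continuous logarithm of a positive power on a circle -/
lemma no_pow_log_on_circle {R : ℝ} (hR : 0 < R) {n : ℕ} {M : ℂ → ℂ}
    (hM : ContinuousOn M {z : ℂ | ‖z‖ = R}) (h : ∀ z : ℂ, ‖z‖ = R → Complex.exp (M z) = z ^ n) :
    n = 0 := by
  set u : ℝ → ℂ := fun θ => R * Complex.exp (θ * Complex.I) with hu
  have hun : ∀ θ, ‖u θ‖ = R := by
    intro θ
    simp [hu, Complex.norm_exp_ofReal_mul_I, abs_of_pos hR]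
  set c : ℝ → ℂ := fun θ => M (u θ) - n * (θ * Complex.I) with hc
  have hcc : Continuous c := by
    have h1 : Continuous (fun θ => M (u θ)) := by
      refine continuous_iff_continuousAt.2 (fun θ => ?_)
      have h2 : ContinuousOn (fun θ => M (u θ)) univ :=
        hM.comp (by fun_prop) (fun θ _ => hun θ)
      exact (h2 θ (mem_univ _)).continuousAt univ_mem
    exact h1.sub (by fun_prop)
  have hexp : ∀ θ, Complex.exp (c θ) = (R:ℂ) ^ n := by
    intro θ
    have : Complex.exp (θ * Complex.I) ≠ 0 := Complex.exp_ne_zero _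
    rw [hc, Complex.exp_sub, h _ (hun θ), Complex.exp_nat_mul]
    simp only [hu]
    rw [mul_pow, mul_div_assoc, div_self (pow_ne_zero _ this), mul_one]
  have hR0 : (R:ℂ) ≠ 0 := by exact_mod_cast hR.ne'
  have hint : ∀ θ, ∃ m : ℤ, c θ = c 0 + m * (2 * Real.pi * Complex.I) := by
    intro θ
    exact Complex.exp_eq_exp_iff_exists_int.1 ((hexp θ).trans (hexp 0).symm)
  -- the imaginary part is constant
  have hconst : ∀ θ, c θ = c 0 := by
    intro θ
    by_contra hne
    obtain ⟨k, hk⟩ := hint θ
    have hk0 : k ≠ 0 := by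
      rintro rfl; simp at hk; exact hne hk
    set g : ℝ → ℝ := fun t => (c t - c 0).im / (2 * Real.pi) with hg
    have hgc : Continuous g := by
      have : Continuous (fun t => (c t - c 0).im) := Complex.continuous_im.comp (hcc.sub continuous_const)
      exact this.div_const _
    have hgint : ∀ t, ∃ m : ℤ, g t = m := by
      intro t
      obtain ⟨m, hm⟩ := hint t
      refine ⟨m, ?_⟩
      simp only [hg]
      rw [hm]
      simp
    have g0 : g 0 = 0 := by simp [hg]
    have gθ : g θ = k := by
      simp only [hg]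
      rw [hk]
      simp
    have hpre : IsPreconnected (g '' univ) := isPreconnected_univ.image _ hgc.continuousOn
    have hsub : ∀ x ∈ g '' univ, ∃ m : ℤ, x = m := by
      rintro x ⟨t, -, rfl⟩; exact hgint t
    have h0m : (0:ℝ) ∈ g '' univ := ⟨0, mem_univ _, g0⟩
    have hnm : (k:ℝ) ∈ g '' univ := ⟨θ, mem_univ _, gθ⟩
    rcases lt_or_gt_of_ne hk0 with hneg | hpos
    · have : (-(1/2) : ℝ) ∈ g '' univ := hpre.Icc_subset hnm h0m
        ⟨by
          have : k ≤ -1 := by omega
          have : (k:ℝ) ≤ -1 := by exact_mod_cast this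
          linarith, by norm_num⟩
      obtain ⟨m, hm⟩ := hsub _ this
      have h2 : (2 * m : ℝ) = -1 := by linarith
      have h3 : 2 * m = -1 := by exact_mod_cast h2
      omega
    · have : ((1/2) : ℝ) ∈ g '' univ := hpre.Icc_subset h0m hnm
        ⟨by norm_num, by
          have : 1 ≤ k := by omega
          have : (1:ℝ) ≤ k := by exact_mod_cast this
          linarith⟩
      obtain ⟨m, hm⟩ := hsub _ this
      have h2 : (2 * m : ℝ) = 1 := by linarith
      have h3 : 2 * m = 1 := by exact_mod_cast h2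
      omega
  have h2π := hconst (2 * Real.pi)
  have hu2 : u (2 * Real.pi) = u 0 := by
    simp [hu]
  simp only [hc, hu2] at h2π
  push_cast at h2π
  have h3 : (n:ℂ) * ((2 * (Real.pi : ℂ)) * Complex.I) = 0 := by linear_combination -h2π
  simpa [Real.pi_ne_zero, Complex.I_ne_zero] using h3

/-- Factoring out finitely many zeros of a continuous function that is holomorphic near them. -/
lemma exists_factor {U : Set ℂ} (hU : IsOpen U) (Z : Finset ℂ) : ∀ (G : ℂ → ℂ), Continuous G →
    DifferentiableOn ℂ G U → (∀ z, G z = 0 → z ∈ Z) → (∀ z ∈ Z, z ∈ U) →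
    ∃ (s : Multiset ℂ) (M : ℂ → ℂ), Continuous M ∧ (∀ z, M z ≠ 0) ∧
      (∀ z, G z = (s.map (fun a => z - a)).prod * M z) := by
  classical
  induction Z using Finset.induction_on with
  | empty =>
    intro G hG _ hZ _
    exact ⟨0, G, hG, fun z hz => by simpa using hZ z hz, fun z => by simp⟩
  | insert a Z haZ ih =>
    intro G hG hGd hZ hZU
    have haU : a ∈ U := hZU a (Finset.mem_insert_self _ _)
    have han : AnalyticAt ℂ G a := hGd.analyticAt (hU.mem_nhds haU)
    have hnz : ¬ ∀ᶠ z in 𝓝 a, G z = 0 := by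
      intro h
      have h1 : {z | G z = 0} ∈ 𝓝 a := h
      have h2 : {z | G z = 0}.Infinite := infinite_of_mem_nhds a h1
      exact h2 ((insert a Z).finite_toSet.subset (fun z hz => hZ z hz))
    obtain ⟨k, g, hgan, hga, hgk⟩ := han.exists_eventuallyEq_pow_smul_nonzero_iff.2 hnz
    set G₁ : ℂ → ℂ := Function.update (fun z => G z / (z - a) ^ k) a (g a) with hG₁
    have e₁ : ∀ z, z ≠ a → G₁ z = G z / (z - a) ^ k := fun z hz => by
      rw [hG₁, Function.update_of_ne hz]
    have e₂ : G₁ a = g a := by rw [hG₁, Function.update_self]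
    have e₃ : G₁ =ᶠ[𝓝 a] g := by
      filter_upwards [hgk] with z hz
      by_cases hza : z = a
      · rw [hza, e₂]
      · rw [e₁ z hza, hz, smul_eq_mul, mul_div_cancel_left₀ _ (pow_ne_zero _ (sub_ne_zero.2 hza))]
    have e₄ : ∀ z, G z = (z - a) ^ k * G₁ z := by
      intro z
      by_cases hza : z = a
      · have := hgk.self_of_nhds
        rw [hza, e₂, this, smul_eq_mul]
      · rw [e₁ z hza, mul_div_cancel₀ _ (pow_ne_zero _ (sub_ne_zero.2 hza))]
    have hcont : Continuous G₁ := by
      refine continuous_iff_continuousAt.2 (fun z => ?_)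
      by_cases hza : z = a
      · rw [hza]; exact hgan.continuousAt.congr e₃.symm
      · have h1 : G₁ =ᶠ[𝓝 z] fun z => G z / (z - a) ^ k := by
          filter_upwards [isOpen_ne.mem_nhds hza] with y hy using e₁ y hy
        refine ContinuousAt.congr ?_ h1.symm
        exact hG.continuousAt.div (by fun_prop) (pow_ne_zero _ (sub_ne_zero.2 hza))
    have hdiff : DifferentiableOn ℂ G₁ U := by
      intro z hz
      by_cases hza : z = a
      · rw [hza]; exact (hgan.differentiableAt.congr_of_eventuallyEq e₃).differentiableWithinAt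
      · have h1 : G₁ =ᶠ[𝓝 z] fun z => G z / (z - a) ^ k := by
          filter_upwards [isOpen_ne.mem_nhds hza] with y hy using e₁ y hy
        refine (DifferentiableAt.congr_of_eventuallyEq ?_ h1).differentiableWithinAt
        exact ((hGd.differentiableAt (hU.mem_nhds hz))).div (by fun_prop)
          (pow_ne_zero _ (sub_ne_zero.2 hza))
    obtain ⟨s, M, hMc, hM0, hM⟩ := ih G₁ hcont hdiff (by
      intro z hz
      have h1 : G z = 0 := by rw [e₄ z, hz, mul_zero]
      rcases Finset.mem_insert.1 (hZ z h1) with h | h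
      · exact absurd (by rw [← h, hz] : (0:ℂ) = G₁ a) (by rw [e₂]; exact hga.symm)
      · exact h) (fun z hz => hZU z (Finset.mem_insert_of_mem hz))
    refine ⟨Multiset.replicate k a + s, M, hMc, hM0, fun z => ?_⟩
    rw [Multiset.map_add, Multiset.prod_add, Multiset.map_replicate, Multiset.prod_replicate,
      mul_assoc, ← hM z, ← e₄ z]

lemma tendsto_prod_div (s : Multiset ℂ) :
    Tendsto (fun z : ℂ => (s.map (fun a => z - a)).prod / z ^ (Multiset.card s)) (cocompact ℂ)
      (𝓝 1) := by
  have hz0 : ∀ᶠ z in cocompact ℂ, z ∈ ({0} : Set ℂ)ᶜ := isCompact_singleton.compl_mem_cocompact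
  have hinv : Tendsto (fun z : ℂ => z⁻¹) (cocompact ℂ) (𝓝 0) := by
    rw [← Metric.cobounded_eq_cocompact]
    exact tendsto_inv₀_cobounded
  induction s using Multiset.induction_on with
  | empty => simp
  | cons a s ih =>
    have h1 : Tendsto (fun z : ℂ => 1 - a * z⁻¹) (cocompact ℂ) (𝓝 (1 - a * 0)) :=
      tendsto_const_nhds.sub (hinv.const_mul a)
    have h2 := h1.mul ih
    simp only [mul_zero, sub_zero, mul_one] at h2
    refine h2.congr' ?_
    filter_upwards [hz0] with z hz
    have hz' : z ≠ 0 := hz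
    rw [Multiset.map_cons, Multiset.prod_cons, Multiset.card_cons, pow_succ]
    field_simp

/-- Degree one: a value not taken on `E` is taken at most once. -/
theorem unique_preimage {F : ℂ → ℂ} (hF : Continuous F) {E : Set ℂ} (hE : IsCompact E)
    (hd : DifferentiableOn ℂ F Eᶜ) (hc : IsPreconnected Eᶜ) {α : ℂ} (hα : α ≠ 0)
    (hlim : Tendsto (fun z => F z / z) (cocompact ℂ) (𝓝 α)) {w : ℂ} (hw : w ∉ F '' E) {a b : ℂ}
    (ha : F a = w) (hb : F b = w) : a = b := by
  classical
  have hz0 : ∀ᶠ z in cocompact ℂ, z ∈ ({0} : Set ℂ)ᶜ := isCompact_singleton.compl_mem_cocompact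
  have hinv : Tendsto (fun z : ℂ => z⁻¹) (cocompact ℂ) (𝓝 0) := by
    rw [← Metric.cobounded_eq_cocompact]
    exact tendsto_inv₀_cobounded
  set G : ℂ → ℂ := fun z => F z - w with hG
  have hGc : Continuous G := hF.sub continuous_const
  have hGd : DifferentiableOn ℂ G Eᶜ := hd.sub_const w
  have hGlim : Tendsto (fun z => G z / (α * z)) (cocompact ℂ) (𝓝 1) := by
    have h2 : Tendsto (fun z => α⁻¹ * (F z / z - w * z⁻¹)) (cocompact ℂ)
        (𝓝 (α⁻¹ * (α - w * 0))) :=
      (hlim.sub (hinv.const_mul w)).const_mul _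
    have h3 : α⁻¹ * (α - w * 0) = 1 := by field_simp; ring
    rw [h3] at h2
    refine h2.congr' ?_
    filter_upwards [hz0] with z hz
    have hz' : z ≠ 0 := hz
    simp only [hG]
    field_simp
  have hslit : ∀ {K : ℂ → ℂ}, Tendsto K (cocompact ℂ) (𝓝 1) →
      ∀ᶠ z in cocompact ℂ, K z ∈ Complex.slitPlane := fun h =>
    h.eventually (Complex.isOpen_slitPlane.mem_nhds Complex.one_mem_slitPlane)
  -- zeros of `G`
  have hzero : ∀ z, G z = 0 → z ∈ Eᶜ := by
    intro z hz hzE
    exact hw ⟨z, hzE, sub_eq_zero.1 hz⟩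
  obtain ⟨R₀, hR₀⟩ := Helper24.CH.eventually_cocompact_norm ((hslit hGlim).and hz0)
  have hbdd : ∀ z, G z = 0 → ‖z‖ < R₀ := by
    intro z hz
    by_contra h
    push Not at h
    have := (hR₀ z h).1
    rw [hz, zero_div] at this
    exact Complex.zero_notMem_slitPlane this
  have hEo : IsOpen Eᶜ := hE.isClosed.isOpen_compl
  have hfin : {z | G z = 0}.Finite := by
    by_contra hinf
    have hcpt : IsCompact (Metric.closedBall (0:ℂ) R₀ ∩ {z | G z = 0}) :=
      (isCompact_closedBall 0 R₀).inter_right (isClosed_eq hGc continuous_const)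
    have hsub : {z | G z = 0} ⊆ Metric.closedBall (0:ℂ) R₀ ∩ {z | G z = 0} := fun z hz =>
      ⟨by simpa using (hbdd z hz).le, hz⟩
    obtain ⟨x, hx, hacc⟩ := Set.Infinite.exists_accPt_of_subset_isCompact hinf hcpt hsub
    have han : AnalyticOnNhd ℂ G Eᶜ := hGd.analyticOnNhd hEo
    have hfr : ∃ᶠ z in 𝓝[≠] x, G z = 0 := (accPt_iff_frequently_nhdsNE.1 hacc)
    have hEq := han.eqOn_zero_of_preconnected_of_frequently_eq_zero hc (hzero x hx.2) hfr
    -- contradiction at infinity
    obtain ⟨R₁, hR₁⟩ := Helper24.CH.eventually_cocompact_norm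
      ((hslit hGlim).and (hE.compl_mem_cocompact))
    have := hR₁ ((max R₁ 0 : ℝ) : ℂ) (by
      rw [Complex.norm_real, Real.norm_eq_abs]
      exact (le_max_left _ _).trans (le_abs_self _))
    have h1 : G ((max R₁ 0 : ℝ) : ℂ) = 0 := hEq this.2
    rw [h1, zero_div] at this
    exact Complex.zero_notMem_slitPlane this.1
  obtain ⟨s, M, hMc, hM0, hM⟩ := exists_factor hEo hfin.toFinset G hGc hGd
    (fun z hz => by simpa using hz) (fun z hz => hzero z (by simpa using hz))
  -- continuous logarithm of `M`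
  obtain ⟨L, hLc, hL⟩ := Complex.exists_continuousOn_eqOn_exp_comp
    Helper24.CH.isSimplyConnected_univ' isOpen_univ (g := M) hMc.continuousOn (by
      rintro ⟨z, -, hz⟩
      exact hM0 z hz)
  set P : ℂ → ℂ := fun z => (s.map (fun a => z - a)).prod with hP
  have hPc : Continuous P := by
    have : P = fun z => (s.map (fun a => z - a)).prod := rfl
    rw [this]
    refine continuous_multiset_prod s (f := fun a z => z - a) (fun a _ => by fun_prop)
  set n := Multiset.card s with hn
  obtain ⟨R₂, hR₂⟩ := Helper24.CH.eventually_cocompact_norm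
    (((hslit hGlim).and (hslit (tendsto_prod_div s))).and hz0)
  set R := max R₂ 1 with hR
  have hR1 : 0 < R := lt_of_lt_of_le zero_lt_one (le_max_right _ _)
  have hgood : ∀ z : ℂ, ‖z‖ = R → (G z / (α * z) ∈ Complex.slitPlane ∧
      P z / z ^ n ∈ Complex.slitPlane) ∧ z ≠ 0 := by
    intro z hz
    exact hR₂ z (by rw [hz]; exact le_max_left _ _)
  have hn1 : 1 ≤ n ∨ n = 0 := by omega
  -- at least one zero
  have hPa : P a = 0 := by
    have h1 := hM a
    have h2 : G a = 0 := by simp [hG, ha]
    rw [h2] at h1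
    exact (mul_eq_zero.1 h1.symm).resolve_right (hM0 a)
  have hPb : P b = 0 := by
    have h1 := hM b
    have h2 : G b = 0 := by simp [hG, hb]
    rw [h2] at h1
    exact (mul_eq_zero.1 h1.symm).resolve_right (hM0 b)
  have hmem : ∀ c, P c = 0 → c ∈ s := by
    intro c hc
    rw [hP] at hc
    have := Multiset.prod_eq_zero_iff.1 hc
    obtain ⟨d, hd, hd2⟩ := Multiset.mem_map.1 this
    rw [sub_eq_zero.1 hd2]; exact hd
  have has := hmem a hPa
  have hbs := hmem b hPb
  have hn0 : n ≠ 0 := by
    intro h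
    rw [Multiset.card_eq_zero.1 h] at has
    simp at has
  have key : n - 1 = 0 := by
    refine no_pow_log_on_circle hR1 (n := n - 1) (M := fun z => Complex.log α +
      Complex.log (G z / (α * z)) - Complex.log (P z / z ^ n) - L z) ?_ ?_
    · refine ((continuousOn_const.add ?_).sub ?_).sub (hLc.mono (subset_univ _))
      · intro z hz
        have hz' : ‖z‖ = R := hz
        have hz0 := (hgood z hz').2
        have hca : ContinuousAt (fun z => G z / (α * z)) z :=
          hGc.continuousAt.div (by fun_prop) (mul_ne_zero hα hz0)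
        exact (hca.clog (hgood z hz').1.1).continuousWithinAt
      · intro z hz
        have hz' : ‖z‖ = R := hz
        have hz0 := (hgood z hz').2
        have hca : ContinuousAt (fun z => P z / z ^ n) z :=
          hPc.continuousAt.div (by fun_prop) (pow_ne_zero _ hz0)
        exact (hca.clog (hgood z hz').1.2).continuousWithinAt
    · intro z hz
      have hz0 := (hgood z hz).2
      have g1 : G z / (α * z) ≠ 0 := Complex.slitPlane_ne_zero (hgood z hz).1.1
      have g2 : P z / z ^ n ≠ 0 := Complex.slitPlane_ne_zero (hgood z hz).1.2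
      have hGz : G z ≠ 0 := fun h => g1 (by rw [h, zero_div])
      have hPz : P z ≠ 0 := fun h => g2 (by rw [h, zero_div])
      have e1 : Complex.exp (L z) = M z := hL (mem_univ z)
      rw [Complex.exp_sub, Complex.exp_sub, Complex.exp_add, e1, Complex.exp_log hα,
        Complex.exp_log g1, Complex.exp_log g2]
      have e2 : G z = P z * M z := hM z
      rw [e2]
      have hMz := hM0 z
      have e3 : z ^ n = z ^ (n - 1) * z := by
        rw [← pow_succ]; congr 1; omega
      rw [e3]
      field_simp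
  have hn1' : n = 1 := by omega
  obtain ⟨c, hc1⟩ := Multiset.card_eq_one.1 (hn ▸ hn1' : Multiset.card s = 1)
  rw [hc1] at has hbs
  rw [Multiset.mem_singleton.1 has, Multiset.mem_singleton.1 hbs]

end Helper3.CR
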