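import Pool.Agent.Helper24.CH.Formula
import Pool.Agent.Helper24.CH.Inj

set_option autoImplicit false

open Filter Topology Set MeasureTheory ComplexConjugate

namespace Helper3.CR

open Helper24.CH

/-- comparison of `F` with an affine map outside a large disc -/
lemma outer_key {F : ℂ → ℂ} {α β γ : ℂ} {C : ℝ} (hα : α ≠ 0) (hC : 0 < C)
    (hexp : ∀ᶠ z in cocompact ℂ, ‖F z - (α * z + β + γ / z)‖ ≤ C / ‖z‖ ^ 2) :
    ∀ᶠ R : ℝ in atTop, ∀ z y : ℂ, R ≤ ‖z‖ → F z = TL α (γ / (R:ℂ) ^ 2) y + β →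
      R - 4 * C / ‖α‖ * R⁻¹ ^ 2 < ‖y‖ ∧ (‖z‖ = R → ‖y - z‖ < 4 * C / ‖α‖ * R⁻¹ ^ 2) := by
  obtain ⟨R₀, hR₀⟩ := eventually_cocompact_norm hexp
  have hαn : 0 < ‖α‖ := norm_pos_iff.2 hα
  have ev1 : ∀ᶠ R : ℝ in atTop, ‖γ‖ * (R⁻¹) ^ 2 ≤ ‖α‖ / 4 := by
    have h1 : Tendsto (fun R : ℝ => ‖γ‖ * (R⁻¹) ^ 2) atTop (𝓝 0) := by
      have := ((tendsto_inv_atTop_zero (𝕜 := ℝ)).pow 2).const_mul ‖γ‖
      simpa using this
    exact h1.eventually_le_const (by positivity)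
  filter_upwards [ev1, eventually_ge_atTop R₀, eventually_ge_atTop 1] with R h1 h2 h3
  intro z y hRz hFz
  have hR : 0 < R := by linarith
  have hRc : (R:ℂ) ≠ 0 := by exact_mod_cast hR.ne'
  have hz : 0 < ‖z‖ := by linarith
  have hz0 : z ≠ 0 := norm_pos_iff.1 hz
  set b : ℂ := γ / (R:ℂ) ^ 2 with hb
  have hbn : ‖b‖ = ‖γ‖ * (R⁻¹) ^ 2 := by
    rw [hb, norm_div, norm_pow, Complex.norm_real, Real.norm_eq_abs, abs_of_pos hR]
    field_simp
  have hba : ‖b‖ ≤ ‖α‖ / 2 := by rw [hbn]; linarith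
  have herr := hR₀ z (h2.trans hRz)
  -- the difference
  have e1 : γ / z = (γ / (‖z‖:ℂ) ^ 2) * conj z := by
    have : z * conj z = (‖z‖:ℂ) ^ 2 := by
      rw [Complex.mul_conj, Complex.normSq_eq_norm_sq]; push_cast; ring
    have hzc : (‖z‖:ℂ) ≠ 0 := by exact_mod_cast hz.ne'
    rw [div_mul_eq_mul_div, div_eq_div_iff hz0 (pow_ne_zero _ hzc), ← this]
    ring
  have e2 : TL α b (y - z) = (F z - (α * z + β + γ / z)) +
      (γ * (((‖z‖:ℂ) ^ 2)⁻¹ - ((R:ℂ) ^ 2)⁻¹)) * conj z := by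
    rw [map_sub, TL_apply α b z, e1, hFz, hb]
    field_simp
    ring
  have e3 : ‖(γ * (((‖z‖:ℂ) ^ 2)⁻¹ - ((R:ℂ) ^ 2)⁻¹)) * conj z‖ =
      ‖γ‖ * ((R ^ 2)⁻¹ - (‖z‖ ^ 2)⁻¹) * ‖z‖ := by
    rw [norm_mul, norm_mul, Complex.norm_conj]
    congr 2
    have : (((‖z‖:ℂ) ^ 2)⁻¹ - ((R:ℂ) ^ 2)⁻¹) = (((‖z‖ ^ 2)⁻¹ - (R ^ 2)⁻¹ : ℝ) : ℂ) := by
      push_cast; ring
    rw [this, Complex.norm_real, Real.norm_eq_abs, abs_sub_comm, abs_of_nonneg]
    have : (‖z‖ ^ 2)⁻¹ ≤ (R ^ 2)⁻¹ := by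
      apply inv_anti₀ (by positivity)
      gcongr
    linarith
  have h4 := norm_TL_ge hba (y - z)
  have h5 : ‖α‖ / 2 * ‖y - z‖ ≤ C / ‖z‖ ^ 2 + ‖γ‖ * ((R ^ 2)⁻¹ - (‖z‖ ^ 2)⁻¹) * ‖z‖ := by
    refine h4.trans ?_
    rw [e2]
    exact (norm_add_le _ _).trans (add_le_add herr e3.le)
  have hCR : C / ‖z‖ ^ 2 ≤ C * R⁻¹ ^ 2 := by
    rw [inv_pow, ← div_eq_mul_inv]
    gcongr
  have hpos : 0 < C * R⁻¹ ^ 2 := by positivity
  have hD : ‖α‖ / 2 * (4 * C / ‖α‖ * R⁻¹ ^ 2) = 2 * (C * R⁻¹ ^ 2) := by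
    field_simp
    ring
  constructor
  · have h6 : ‖γ‖ * ((R ^ 2)⁻¹ - (‖z‖ ^ 2)⁻¹) * ‖z‖ ≤ ‖α‖ / 2 * (‖z‖ - R) := by
      have e : ((R ^ 2)⁻¹ - (‖z‖ ^ 2)⁻¹) * ‖z‖ = (‖z‖ - R) * ((‖z‖ + R) / ‖z‖) * R⁻¹ ^ 2 := by
        field_simp
        ring
      have e4 : (‖z‖ + R) / ‖z‖ ≤ 2 := by
        rw [div_le_iff₀ hz]; linarith
      calc ‖γ‖ * ((R ^ 2)⁻¹ - (‖z‖ ^ 2)⁻¹) * ‖z‖
          = (‖γ‖ * R⁻¹ ^ 2) * ((‖z‖ - R) * ((‖z‖ + R) / ‖z‖)) := by
            rw [mul_assoc, e]; ring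
        _ ≤ (‖α‖ / 4) * ((‖z‖ - R) * 2) := by
            have : 0 ≤ ‖z‖ - R := by linarith
            gcongr
        _ = ‖α‖ / 2 * (‖z‖ - R) := by ring
    have h7 : ‖z‖ - ‖y‖ ≤ ‖y - z‖ := by
      have := norm_sub_norm_le z y
      rwa [norm_sub_rev] at this
    have h8 : ‖α‖ / 2 * (‖z‖ - ‖y‖) ≤ C * R⁻¹ ^ 2 + ‖α‖ / 2 * (‖z‖ - R) := by
      calc _ ≤ ‖α‖ / 2 * ‖y - z‖ := by gcongr
        _ ≤ _ := h5.trans (add_le_add hCR h6)
    have h9 : ‖α‖ / 2 * (R - ‖y‖) < ‖α‖ / 2 * (4 * C / ‖α‖ * R⁻¹ ^ 2) := by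
      rw [hD]; linarith
    have := lt_of_mul_lt_mul_left h9 (by positivity)
    linarith
  · intro hzR
    have e5 : ‖γ‖ * ((R ^ 2)⁻¹ - (‖z‖ ^ 2)⁻¹) * ‖z‖ = 0 := by rw [hzR]; ring
    rw [e5, add_zero] at h5
    have h9 : ‖α‖ / 2 * ‖y - z‖ < ‖α‖ / 2 * (4 * C / ‖α‖ * R⁻¹ ^ 2) := by
      rw [hD]; linarith
    exact lt_of_mul_lt_mul_left h9 (by positivity)

lemma tendsto_div_of_exp {F : ℂ → ℂ} {α β γ : ℂ} {C : ℝ}
    (hexp : ∀ᶠ z in cocompact ℂ, ‖F z - (α * z + β + γ / z)‖ ≤ C / ‖z‖ ^ 2) :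
    Tendsto (fun z => F z / z) (cocompact ℂ) (𝓝 α) := by
  have hinv : Tendsto (fun z : ℂ => z⁻¹) (cocompact ℂ) (𝓝 0) := by
    rw [← Metric.cobounded_eq_cocompact]
    exact tendsto_inv₀_cobounded
  have hz0 : ∀ᶠ z in cocompact ℂ, z ∈ ({0} : Set ℂ)ᶜ := isCompact_singleton.compl_mem_cocompact
  have h1 : Tendsto (fun z : ℂ => α + β * z⁻¹ + γ * z⁻¹ ^ 2) (cocompact ℂ) (𝓝 α) := by
    have := ((tendsto_const_nhds (x := α)).add (hinv.const_mul β)).add
      ((hinv.pow 2).const_mul γ)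
    simpa using this
  have h2 : Tendsto (fun z : ℂ => F z / z - (α + β * z⁻¹ + γ * z⁻¹ ^ 2)) (cocompact ℂ) (𝓝 0) := by
    have h3 : Tendsto (fun z : ℂ => C * ‖z⁻¹‖ ^ 3) (cocompact ℂ) (𝓝 0) := by
      have := ((hinv.norm).pow 3).const_mul C
      simpa using this
    refine squeeze_zero_norm' ?_ h3
    filter_upwards [hexp, hz0] with z hz hz0
    have hz0' : z ≠ 0 := hz0
    have e1 : F z / z - (α + β * z⁻¹ + γ * z⁻¹ ^ 2) = (F z - (α * z + β + γ / z)) / z := by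
      field_simp
    rw [e1, norm_div]
    have hn : 0 < ‖z‖ := norm_pos_iff.2 hz0'
    calc ‖F z - (α * z + β + γ / z)‖ / ‖z‖ ≤ (C / ‖z‖ ^ 2) / ‖z‖ := by gcongr
      _ = C * ‖z⁻¹‖ ^ 3 := by rw [norm_inv]; field_simp
  have := h2.add h1
  simpa using this

lemma tendsto_cocompact {F : ℂ → ℂ} {α : ℂ} (hα : α ≠ 0)
    (hlim : Tendsto (fun z => F z / z) (cocompact ℂ) (𝓝 α)) :
    Tendsto F (cocompact ℂ) (cocompact ℂ) := by
  rw [← Metric.cobounded_eq_cocompact, ← tendsto_norm_atTop_iff_cobounded]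
  have h1 : Tendsto (fun z : ℂ => ‖z‖) (Bornology.cobounded ℂ) atTop := tendsto_norm_cobounded_atTop
  have h2 : Tendsto (fun z => ‖F z / z‖) (Bornology.cobounded ℂ) (𝓝 ‖α‖) := by
    rw [Metric.cobounded_eq_cocompact]; exact hlim.norm
  have h3 := h2.pos_mul_atTop (norm_pos_iff.2 hα) h1
  refine h3.congr' ?_
  rw [Metric.cobounded_eq_cocompact]
  have hz0 : ∀ᶠ z in cocompact ℂ, z ∈ ({0} : Set ℂ)ᶜ := isCompact_singleton.compl_mem_cocompact
  filter_upwards [hz0] with z hz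
  have hz' : z ≠ 0 := hz
  rw [norm_div, div_mul_cancel₀ _ (norm_ne_zero_iff.2 hz')]

/-- the omitted set is contained in the image of `E` -/
lemma omit_subset {F : ℂ → ℂ} (hs : Function.Surjective F) (E : Set ℂ) :
    (F '' Eᶜ)ᶜ ⊆ F '' E := by
  intro w hw
  obtain ⟨z, rfl⟩ := hs w
  by_contra h
  exact hw ⟨z, fun hz => h ⟨z, hz, rfl⟩, rfl⟩

/-- Area asymptotics for a map with an expansion at infinity. -/
theorem area_low_up {F : ℂ → ℂ} (hF : Continuous F) {E : Set ℂ} (hE : IsCompact E)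
    (hd : DifferentiableOn ℂ F Eᶜ) {α β γ : ℂ} {C : ℝ} (hα : α ≠ 0) (hC : 0 < C)
    (hexp : ∀ᶠ z in cocompact ℂ, ‖F z - (α * z + β + γ / z)‖ ≤ C / ‖z‖ ^ 2) :
    ∃ m : ℝ → ℝ, Tendsto m atTop (𝓝 0) ∧
      (∀ᶠ R : ℝ in atTop, Real.pi * ‖α‖ ^ 2 * R ^ 2 + m R ≤
        (volume (F '' (Metric.ball (0:ℂ) R \ E) ∪ (F '' Eᶜ)ᶜ)).toReal) ∧
      (InjOn F Eᶜ → Tendsto (fun R : ℝ =>
        (volume (F '' (Metric.ball (0:ℂ) R \ E) ∪ (F '' Eᶜ)ᶜ)).toReal -
          Real.pi * ‖α‖ ^ 2 * R ^ 2) atTop (𝓝 0)) := by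
  have hlim := tendsto_div_of_exp hexp
  have hsurj := surjective_of_tendsto hF hα hlim
  have hcc := tendsto_cocompact hα hlim
  have hEo : IsOpen Eᶜ := hE.isClosed.isOpen_compl
  have hαn : 0 < ‖α‖ := norm_pos_iff.2 hα
  have hprop : IsProperMap F := isProperMap_iff_tendsto_cocompact.2 ⟨hF, hcc⟩
  set A := ‖α‖ ^ 2 with hA
  set G := ‖γ‖ ^ 2 with hG
  set D := 4 * C / ‖α‖ with hD
  have hD0 : 0 < D := by positivity
  set Pm : ℝ → ℝ := fun x => Real.pi * (A * (-2 * D * x + D ^ 2 * x ^ 4) - G * x ^ 2 +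
    2 * G * D * x ^ 5 - G * D ^ 2 * x ^ 8) with hPm
  set Pp : ℝ → ℝ := fun x => Real.pi * (A * (2 * D * x + D ^ 2 * x ^ 4) - G * x ^ 2 -
    2 * G * D * x ^ 5 - G * D ^ 2 * x ^ 8) with hPp
  have tm : Tendsto (fun R : ℝ => Pm R⁻¹) atTop (𝓝 0) := by
    have hc : Continuous Pm := by fun_prop
    have := (hc.tendsto 0).comp tendsto_inv_atTop_zero
    have e : Pm 0 = 0 := by simp [hPm]
    rwa [e] at this
  have tp : Tendsto (fun R : ℝ => Pp R⁻¹) atTop (𝓝 0) := by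
    have hc : Continuous Pp := by fun_prop
    have := (hc.tendsto 0).comp tendsto_inv_atTop_zero
    have e : Pp 0 = 0 := by simp [hPp]
    rwa [e] at this
  obtain ⟨R₀, hR₀⟩ := hE.isBounded.subset_ball (0:ℂ)
  have main : ∀ᶠ R : ℝ in atTop, Pm R⁻¹ ≤
      (volume (F '' (Metric.ball (0:ℂ) R \ E) ∪ (F '' Eᶜ)ᶜ)).toReal - Real.pi * A * R ^ 2 ∧
      (InjOn F Eᶜ → (volume (F '' (Metric.ball (0:ℂ) R \ E) ∪ (F '' Eᶜ)ᶜ)).toReal -
        Real.pi * A * R ^ 2 ≤ Pp R⁻¹) := by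
    have ev1 : ∀ᶠ R : ℝ in atTop, ‖γ‖ * (R⁻¹) ^ 2 ≤ ‖α‖ / 2 := by
      have h1 : Tendsto (fun R : ℝ => ‖γ‖ * (R⁻¹) ^ 2) atTop (𝓝 0) := by
        have := ((tendsto_inv_atTop_zero (𝕜 := ℝ)).pow 2).const_mul ‖γ‖
        simpa using this
      exact h1.eventually_le_const (by positivity)
    have ev2 : ∀ᶠ R : ℝ in atTop, D * (R⁻¹) ^ 2 < 1 := by
      have h1 : Tendsto (fun R : ℝ => D * (R⁻¹) ^ 2) atTop (𝓝 0) := by
        have := ((tendsto_inv_atTop_zero (𝕜 := ℝ)).pow 2).const_mul D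
        simpa using this
      exact h1.eventually_lt_const (by norm_num)
    filter_upwards [ev1, ev2, eventually_ge_atTop R₀, eventually_gt_atTop 1,
      outer_key hα hC hexp] with R h1 h2 h3 h4 hk
    have hR : 0 < R := by linarith
    have hER : E ⊆ Metric.ball (0:ℂ) R := hR₀.trans (Metric.ball_subset_ball h3)
    set b : ℂ := γ / (R:ℂ) ^ 2 with hb
    have hbn : ‖b‖ = ‖γ‖ * (R⁻¹) ^ 2 := by
      rw [hb, norm_div, norm_pow, Complex.norm_real, Real.norm_eq_abs, abs_of_pos hR]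
      field_simp
    have hba : ‖b‖ ≤ ‖α‖ / 2 := by rw [hbn]; exact h1
    set δ := D * (R⁻¹) ^ 2 with hδ
    have hδ0 : 0 < δ := by positivity
    set T : ℂ → ℂ := fun z => TL α b z + β with hT
    have hTc : Continuous T := ((TL α b).continuous_of_finiteDimensional).add continuous_const
    have hTm : ∀ z, ‖α‖ / 2 * ‖z‖ ≤ ‖TL α b z‖ := norm_TL_ge hba
    have hinj : Function.Injective (TL α b) := by
      rw [injective_iff_map_eq_zero]
      intro z hz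
      have h5 := hTm z
      rw [hz, norm_zero] at h5
      have : ‖z‖ ≤ 0 := by nlinarith
      exact norm_le_zero_iff.1 this
    have hTs : Function.Surjective T := by
      intro w
      obtain ⟨y, hy⟩ := LinearMap.surjective_of_injective hinj (w - β)
      exact ⟨y, by simp [hT, hy]⟩
    set U : Set ℂ := F '' (Metric.ball (0:ℂ) R \ E) ∪ (F '' Eᶜ)ᶜ with hU
    have hlow : T '' Metric.ball (0:ℂ) (R - δ) ⊆ U := by
      rintro w ⟨y, hy, rfl⟩
      by_cases hw : T y ∈ F '' Eᶜ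
      · obtain ⟨z, hz, hzy⟩ := hw
        refine Or.inl ⟨z, ⟨?_, hz⟩, hzy⟩
        by_contra hcon
        simp only [Metric.mem_ball, dist_zero_right, not_lt] at hcon hy
        have := (hk z y hcon hzy).1
        linarith
      · exact Or.inr hw
    have hup : InjOn F Eᶜ → U ⊆ T '' Metric.ball (0:ℂ) (R + δ) := by
      intro hFi
      set S : Set ℂ := T '' {y | R + δ ≤ ‖y‖} with hS
      have hSc : IsPreconnected S :=
        (isPreconnected_compl_ball' (R + δ) (by linarith)).image _ hTc.continuousOn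
      set O : Set ℂ := F '' {z | R < ‖z‖} with hO
      have hsubE : ∀ z : ℂ, R < ‖z‖ → z ∈ Eᶜ := by
        intro z hz hzE
        have := hER hzE
        simp only [Metric.mem_ball, dist_zero_right] at this
        linarith
      have hOo : IsOpen O := by
        rw [isOpen_iff_mem_nhds]
        rintro w ⟨z, hz, rfl⟩
        have hzE := hsubE z hz
        have han : AnalyticAt ℂ F z := hd.analyticAt (hEo.mem_nhds hzE)
        have hno : ¬ ∀ᶠ x in 𝓝 z, F x = F z := by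
          intro h
          have h5 : ∀ᶠ x in 𝓝[≠] z, F x = F z := h.filter_mono nhdsWithin_le_nhds
          have h6' : ∀ᶠ x in 𝓝 z, x ∈ Eᶜ := hEo.mem_nhds hzE
          have h6 : ∀ᶠ x in 𝓝[≠] z, x ∈ Eᶜ := h6'.filter_mono nhdsWithin_le_nhds
          have h7 : ∀ᶠ x in 𝓝[≠] z, x ≠ z := self_mem_nhdsWithin
          obtain ⟨x, hx1, hx2, hx3⟩ := (h5.and (h6.and h7)).exists
          exact hx3 (hFi hx2 hzE hx1)
        have hop := han.eventually_constant_or_nhds_le_map_nhds.resolve_left hno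
        exact hop (image_mem_map ((isOpen_lt continuous_const continuous_norm).mem_nhds hz))
      have hSO : S ⊆ O := by
        refine hSc.subset_of_closure_inter_subset hOo ?_ ?_
        · -- nonempty
          have hcp : IsCompact (F '' Metric.closedBall (0:ℂ) R) :=
            (isCompact_closedBall 0 R).image hF
          obtain ⟨B, hB⟩ := hcp.isBounded.exists_norm_le
          obtain ⟨t, ht1, ht2⟩ : ∃ t : ℝ, R + δ ≤ t ∧ B + ‖β‖ < ‖α‖ / 2 * t := by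
            refine ⟨max (R + δ) ((B + ‖β‖ + 1) / (‖α‖ / 2)), le_max_left _ _, ?_⟩
            have : (B + ‖β‖ + 1) ≤ ‖α‖ / 2 * max (R + δ) ((B + ‖β‖ + 1) / (‖α‖ / 2)) := by
              calc B + ‖β‖ + 1 = ‖α‖ / 2 * ((B + ‖β‖ + 1) / (‖α‖ / 2)) := by field_simp
                _ ≤ _ := by gcongr; exact le_max_right _ _
            linarith
          have ht0 : 0 < t := by linarith
          have hy : ‖((t:ℝ):ℂ)‖ = t := by simp [abs_of_pos ht0]
          obtain ⟨z, hz⟩ := hsurj (T (t:ℂ))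
          refine ⟨T (t:ℂ), ⟨(t:ℂ), by rw [mem_ofPred_eq, hy]; exact ht1, rfl⟩, ⟨z, ?_, hz⟩⟩
          by_contra hcon
          simp only [mem_ofPred_eq, not_lt] at hcon
          have h7 := hB (F z) ⟨z, by simpa using hcon, rfl⟩
          rw [hz] at h7
          have h8 := hTm (t:ℂ)
          rw [hy] at h8
          have h9 : ‖TL α b (t:ℂ)‖ ≤ ‖T (t:ℂ)‖ + ‖β‖ := by
            calc ‖TL α b (t:ℂ)‖ = ‖T (t:ℂ) - β‖ := by simp [hT]
              _ ≤ _ := norm_sub_le _ _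
          linarith
        · rintro w ⟨hw, ⟨y, hy, hyw⟩⟩
          have hcl : closure O ⊆ F '' {z | R ≤ ‖z‖} := by
            refine closure_minimal ?_ ?_
            · rintro _ ⟨z, hz, rfl⟩
              have hz' : R < ‖z‖ := hz
              exact ⟨z, hz'.le, rfl⟩
            · exact hprop.isClosedMap _ (isClosed_le continuous_const continuous_norm)
          obtain ⟨z, hz, hzw⟩ := hcl hw
          refine ⟨z, ?_, hzw⟩
          rcases lt_or_eq_of_le (show R ≤ ‖z‖ from hz) with h5 | h5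
          · exact h5
          · exfalso
            have h6 := (hk z y hz (hzw.trans hyw.symm)).2 h5.symm
            have h7 : ‖y‖ ≤ ‖z‖ + ‖y - z‖ := by
              calc ‖y‖ = ‖z + (y - z)‖ := by congr 1; ring
                _ ≤ _ := norm_add_le _ _
            have hy' : R + δ ≤ ‖y‖ := hy
            linarith
      intro w hw
      by_contra hcon
      obtain ⟨y, hy⟩ := hTs w
      have hyn : R + δ ≤ ‖y‖ := by
        by_contra h
        push Not at h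
        exact hcon ⟨y, by simpa using h, hy⟩
      obtain ⟨z, hz, hzw⟩ := hSO ⟨y, hyn, hy⟩
      have hzE := hsubE z hz
      rcases hw with ⟨z', hz', hz'w⟩ | hw
      · have := hFi hz'.2 hzE (hz'w.trans hzw.symm)
        rw [this] at hz'
        have h5 : ‖z‖ < R := by simpa using hz'.1
        have h6 : R < ‖z‖ := hz
        linarith
      · exact hw ⟨z, hzE, hzw⟩
    have hdet : |‖α‖ ^ 2 - ‖b‖ ^ 2| = A - G * (R⁻¹) ^ 4 := by
      rw [abs_of_nonneg, hbn]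
      · rw [hA, hG]; ring
      · have : ‖b‖ ^ 2 ≤ ‖α‖ ^ 2 := by
          have := norm_nonneg b
          nlinarith
        linarith
    have hfin : volume U ≠ ⊤ := by
      have h5 : IsCompact (F '' Metric.closedBall (0:ℂ) R ∪ F '' E) :=
        ((isCompact_closedBall 0 R).image hF).union (hE.image hF)
      refine ne_top_of_le_ne_top h5.measure_lt_top.ne (measure_mono ?_)
      exact union_subset_union (image_mono (sdiff_subset.trans Metric.ball_subset_closedBall))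
        (omit_subset hsurj E)
    have hfin2 : volume (T '' Metric.ball (0:ℂ) (R + δ)) ≠ ⊤ := by
      have : IsCompact (T '' Metric.closedBall (0:ℂ) (R + δ)) :=
        (isCompact_closedBall 0 _).image hTc
      exact ne_top_of_le_ne_top this.measure_lt_top.ne
        (measure_mono (image_mono Metric.ball_subset_closedBall))
    constructor
    · have v1 := ENNReal.toReal_mono hfin (measure_mono hlow)
      rw [volume_image_TL _ _ _ _ (by linarith), hdet] at v1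
      have e : Pm R⁻¹ = (A - G * R⁻¹ ^ 4) * (Real.pi * (R - δ) ^ 2) - Real.pi * A * R ^ 2 := by
        simp only [hPm, hδ]
        set x := R⁻¹ with hx
        have q1 : R = x⁻¹ := by rw [hx, inv_inv]
        have hx0 : x ≠ 0 := by rw [hx]; positivity
        rw [q1]
        field_simp
        ring
      rw [e]; linarith
    · intro hFi
      have v2 := ENNReal.toReal_mono hfin2 (measure_mono (hup hFi))
      rw [volume_image_TL _ _ _ _ (by linarith), hdet] at v2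
      have e : Pp R⁻¹ = (A - G * R⁻¹ ^ 4) * (Real.pi * (R + δ) ^ 2) - Real.pi * A * R ^ 2 := by
        simp only [hPp, hδ]
        set x := R⁻¹ with hx
        have q1 : R = x⁻¹ := by rw [hx, inv_inv]
        have hx0 : x ≠ 0 := by rw [hx]; positivity
        rw [q1]
        field_simp
        ring
      rw [e]; linarith
  refine ⟨fun R => Pm R⁻¹, tm, main.mono (fun R h => by linarith [h.1]), fun hFi => ?_⟩
  exact tendsto_of_tendsto_of_tendsto_of_le_of_le' tm tp (main.mono fun R h => h.1)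
    (main.mono fun R h => h.2 hFi)

end Helper3.CR
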