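import Pool.Agent.Helper3.CR.Mix

set_option autoImplicit false

open Filter Topology Set MeasureTheory ComplexConjugate

namespace Helper3.CR

open Helper24.CH

lemma interior_empty_of_td {S : Set ℂ} (h : IsTotallyDisconnected S) : interior S = ∅ := by
  by_contra hne
  obtain ⟨x, hx⟩ := nonempty_iff_ne_empty.2 hne
  obtain ⟨ε, hε, hb⟩ := Metric.isOpen_iff.1 isOpen_interior x hx
  have hpre : IsPreconnected (Metric.ball x ε) := (convex_ball x ε).isPreconnected
  have hsub := h _ (hb.trans interior_subset) hpre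
  have h1 : x ∈ Metric.ball x ε := Metric.mem_ball_self hε
  have h2 : x + (ε / 2 : ℝ) ∈ Metric.ball x ε := by
    rw [Metric.mem_ball, dist_eq_norm, add_sub_cancel_left, Complex.norm_real, Real.norm_eq_abs,
      abs_of_pos (by positivity)]
    linarith
  have h3 := hsub h1 h2
  have h4 : ((ε / 2 : ℝ) : ℂ) = 0 := by linear_combination -h3
  have h5 : ε / 2 = 0 := by exact_mod_cast h4
  linarith

lemma td_image {G : ℂ → ℂ} (hG : Continuous G) {E : Set ℂ} (hE : IsCompact E)
    (h : IsTotallyDisconnected E) (hi : InjOn G E) : IsTotallyDisconnected (G '' E) := by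
  have : CompactSpace E := isCompact_iff_compactSpace.1 hE
  have : TotallyDisconnectedSpace E := totallyDisconnectedSpace_subtype_iff.2 h
  have hce : Topology.IsClosedEmbedding (fun x : E => G x) :=
    Continuous.isClosedEmbedding (hG.comp continuous_subtype_val)
      (fun x y hxy => Subtype.ext (hi x.2 y.2 hxy))
  have e : G '' E = (fun x : E => G x) '' univ := by
    ext w
    constructor
    · rintro ⟨z, hz, rfl⟩; exact ⟨⟨z, hz⟩, mem_univ _, rfl⟩
    · rintro ⟨z, -, rfl⟩; exact ⟨z, z.2, rfl⟩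
  rw [e]
  exact (hce.isEmbedding.isTotallyDisconnected_image).2
    (isTotallyDisconnected_of_totallyDisconnectedSpace _)

/-- the dichotomy for a map of degree one -/
theorem dichotomy {E : Set ℂ} (hE : IsCompact E) (hc : IsPreconnected Eᶜ) (hde : Dense Eᶜ)
    {G : ℂ → ℂ} {α : ℂ} (hG : Continuous G) (hd : DifferentiableOn ℂ G Eᶜ) (hα : α ≠ 0)
    (hlim : Tendsto (fun z => G z / z) (cocompact ℂ) (𝓝 α)) :
    (interior (G '' E) = ∅ ↔ InjOn G Eᶜ) ∧
    (interior (G '' E) = ∅ ↔ Disjoint (G '' E) (G '' Eᶜ)) ∧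
    (IsTotallyDisconnected E → (IsHomeomorph G ↔ interior (G '' E) = ∅) ∧
      (IsHomeomorph G ↔ InjOn G E)) := by
  have hs := surjective_of_tendsto hG hα hlim
  have hEo : IsOpen Eᶜ := hE.isClosed.isOpen_compl
  have hA : interior (G '' E) = ∅ → InjOn G Eᶜ ∧ Disjoint (G '' E) (G '' Eᶜ) := fun h =>
    inj_of_interior_empty hG hE hd hc hde hα hlim h
  have hB : Disjoint (G '' E) (G '' Eᶜ) → interior (G '' E) = ∅ := fun h =>
    interior_empty_of_disjoint hG hde hs h
  have hC : InjOn G Eᶜ → Disjoint (G '' E) (G '' Eᶜ) := by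
    intro hinj
    rw [Set.disjoint_left]
    rintro w ⟨e, he, rfl⟩ ⟨a, ha, hae⟩
    have hne : a ≠ e := fun h => ha (h ▸ he)
    obtain ⟨A, B, hAo, hBo, haA, heB, hAB⟩ := t2_separation hne
    have h1 : G '' (A ∩ Eᶜ) ∈ 𝓝 (G e) := by
      rw [← hae]
      exact image_mem_nhds hE hd hc hα hlim ha ((hAo.inter hEo).mem_nhds ⟨haA, ha⟩)
    have h2 : G ⁻¹' (G '' (A ∩ Eᶜ)) ∩ B ∈ 𝓝 e := inter_mem (hG.continuousAt h1) (hBo.mem_nhds heB)
    obtain ⟨z, hz, ⟨⟨a', ha', e1⟩, hzB⟩⟩ := hde.inter_nhds_nonempty h2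
    have := hinj ha'.2 hz e1
    exact Set.disjoint_left.1 hAB ha'.1 (this ▸ hzB)
  refine ⟨⟨fun h => (hA h).1, fun h => hB (hC h)⟩, ⟨fun h => (hA h).2, hB⟩, fun htd => ?_⟩
  have hD : interior (G '' E) = ∅ → IsHomeomorph G := by
    intro h
    obtain ⟨h1, h2⟩ := hA h
    have hi := injective_of_totallyDisconnected hG hE htd hd hde hα hlim h1 h2
    exact isHomeomorph_of_injective hG hi hα hlim
  have hE1 : IsHomeomorph G → InjOn G E := fun h => h.injective.injOn
  have hE2 : InjOn G E → interior (G '' E) = ∅ := fun h =>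
    interior_empty_of_td (td_image hG hE htd h)
  exact ⟨⟨fun h => hE2 (hE1 h), hD⟩, ⟨hE1, fun h => hD (hE2 h)⟩⟩

lemma integral_pos_of_not_const {E : Set ℂ} (hE : IsCompact E) (hc : IsPreconnected Eᶜ)
    (hde : Dense Eᶜ) {f g : ℂ → ℂ} (hf : Continuous f) (hg : Continuous g)
    (hfd : DifferentiableOn ℂ f Eᶜ) (hgd : DifferentiableOn ℂ g Eᶜ)
    (hi : IntegrableOn (fun z => ‖deriv f z - deriv g z‖ ^ 2) Eᶜ)
    (hn : ¬ ∃ c : ℂ, ∀ z, f z = g z + c) :
    0 < ∫ z in Eᶜ, ‖deriv f z - deriv g z‖ ^ 2 := by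
  have hopen : IsOpen Eᶜ := hE.isClosed.isOpen_compl
  have h0 : 0 ≤ ∫ z in Eᶜ, ‖deriv f z - deriv g z‖ ^ 2 := integral_nonneg (fun z => by positivity)
  refine lt_of_le_of_ne h0 (fun hz => hn ?_)
  have hder : ∀ z ∈ Eᶜ, deriv f z = deriv g z := by
    have hae : (fun z => ‖deriv f z - deriv g z‖ ^ 2) =ᵐ[volume.restrict Eᶜ] 0 :=
      (setIntegral_eq_zero_iff_of_nonneg_ae (ae_of_all _ (fun z => by positivity)) hi).1 hz.symm
    have hcc : ContinuousOn (fun z => ‖deriv f z - deriv g z‖ ^ 2) Eᶜ := by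
      have h1 : ContinuousOn (deriv f) Eᶜ := (hfd.deriv hopen).continuousOn
      have h2 : ContinuousOn (deriv g) Eᶜ := (hgd.deriv hopen).continuousOn
      exact ((h1.sub h2).norm).pow 2
    have heq := Measure.eqOn_open_of_ae_eq hae hopen hcc continuousOn_const
    intro z hz
    have := heq hz
    simp only [Pi.zero_apply] at this
    have h3 : ‖deriv f z - deriv g z‖ = 0 := by
      exact pow_eq_zero_iff (two_ne_zero) |>.1 this
    exact sub_eq_zero.1 (norm_eq_zero.1 h3)
  have hconst : ∃ b, ∀ z ∈ Eᶜ, f z - g z = b := by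
    refine hopen.exists_is_const_of_deriv_eq_zero hc (hfd.sub hgd) ?_
    intro z hz
    have hn := hopen.mem_nhds hz
    change deriv (fun z => f z - g z) z = 0
    rw [deriv_fun_sub (hfd.differentiableAt hn) (hgd.differentiableAt hn), hder z hz, sub_self]
  obtain ⟨b, hb⟩ := hconst
  refine ⟨b, fun z => ?_⟩
  have hclosed : IsClosed {z : ℂ | f z - g z = b} := isClosed_eq (hf.sub hg) continuous_const
  have hsub : Eᶜ ⊆ {z : ℂ | f z - g z = b} := fun z hz => hb z hz
  have hall : z ∈ {z : ℂ | f z - g z = b} := by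
    have := hclosed.closure_subset_iff.2 hsub
    exact this (hde z)
  have hall' : f z - g z = b := hall
  linear_combination hall'

end Helper3.CR
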