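import Pool.Agent.Helper3.CR.Top
import Mathlib.Topology.Separation.Profinite

set_option autoImplicit false

open Filter Topology Set MeasureTheory

namespace Helper3.CR

/-- a totally disconnected compact set can be split between two of its points -/
lemma split {E : Set ℂ} (hE : IsCompact E) (htd : IsTotallyDisconnected E) {e₁ e₂ : ℂ}
    (h₁ : e₁ ∈ E) (h₂ : e₂ ∈ E) (hne : e₁ ≠ e₂) :
    ∃ U : Set ℂ, IsOpen U ∧ Bornology.IsBounded U ∧ e₁ ∈ U ∧ e₂ ∉ closure U ∧
      frontier U ⊆ Eᶜ := by
  have : CompactSpace E := isCompact_iff_compactSpace.1 hE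
  have : TotallyDisconnectedSpace E := totallyDisconnectedSpace_subtype_iff.2 htd
  have : TotallySeparatedSpace E := inferInstance
  have hne' : (⟨e₁, h₁⟩ : E) ≠ ⟨e₂, h₂⟩ := fun h => hne (congrArg Subtype.val h)
  obtain ⟨V, hV, hV1, hV2⟩ := exists_isClopen_of_totally_separated hne'
  set E₁ : Set ℂ := Subtype.val '' V with hE₁
  set E₂ : Set ℂ := Subtype.val '' Vᶜ with hE₂
  have c₁ : IsCompact E₁ := hV.1.isCompact.image continuous_subtype_val
  have c₂ : IsCompact E₂ := hV.compl.1.isCompact.image continuous_subtype_val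
  have hdis : Disjoint E₁ E₂ := (disjoint_image_iff Subtype.val_injective).2 disjoint_compl_right
  have hun : E ⊆ E₁ ∪ E₂ := by
    intro x hx
    by_cases h : (⟨x, hx⟩ : E) ∈ V
    · exact Or.inl ⟨⟨x, hx⟩, h, rfl⟩
    · exact Or.inr ⟨⟨x, hx⟩, h, rfl⟩
  obtain ⟨δ, hδ, hd⟩ := hdis.exists_cthickenings c₁ c₂.isClosed
  have hcl : closure (Metric.thickening δ E₁) ⊆ Metric.cthickening δ E₁ :=
    Metric.closure_thickening_subset_cthickening δ E₁
  have hE₂c : E₂ ⊆ Metric.cthickening δ E₂ := Metric.self_subset_cthickening E₂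
  refine ⟨Metric.thickening δ E₁, Metric.isOpen_thickening, c₁.isBounded.thickening,
    Metric.self_subset_thickening hδ _ ⟨⟨e₁, h₁⟩, hV1, rfl⟩, ?_, ?_⟩
  · intro h
    exact Set.disjoint_left.1 hd (hcl h) (hE₂c ⟨⟨e₂, h₂⟩, hV2, rfl⟩)
  · intro x hx hxE
    rcases hun hxE with h | h
    · have : x ∈ Metric.thickening δ E₁ := Metric.self_subset_thickening hδ _ h
      rw [Metric.isOpen_thickening.frontier_eq] at hx
      exact hx.2 this
    · exact Set.disjoint_left.1 hd (hcl (frontier_subset_closure hx)) (hE₂c h)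

theorem injective_of_totallyDisconnected {F : ℂ → ℂ} (hF : Continuous F) {E : Set ℂ}
    (hE : IsCompact E) (htd : IsTotallyDisconnected E) (hd : DifferentiableOn ℂ F Eᶜ)
    (hde : Dense Eᶜ) {α : ℂ} (hα : α ≠ 0)
    (hlim : Tendsto (fun z => F z / z) (cocompact ℂ) (𝓝 α)) (hinj : InjOn F Eᶜ)
    (hdis : Disjoint (F '' E) (F '' Eᶜ)) : Function.Injective F := by
  classical
  have hEo : IsOpen Eᶜ := hE.isClosed.isOpen_compl
  intro e₁ e₂ h12
  by_contra hne
  by_cases h1 : e₁ ∈ E
  swap
  · by_cases h2 : e₂ ∈ E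
    · exact Set.disjoint_left.1 hdis ⟨e₂, h2, rfl⟩ ⟨e₁, h1, h12⟩
    · exact hne (hinj h1 h2 h12)
  by_cases h2 : e₂ ∈ E
  swap
  · exact Set.disjoint_left.1 hdis ⟨e₁, h1, rfl⟩ ⟨e₂, h2, h12.symm⟩
  obtain ⟨U, hUo, hUb, hU1, hU2, hfr⟩ := split hE htd h1 h2 hne
  set K := frontier U with hK
  have hKc : IsCompact K := Metric.isCompact_of_isClosed_isBounded isClosed_frontier
    (hUb.closure.subset frontier_subset_closure)
  set w₀ := F e₁ with hw₀
  have hw0K : w₀ ∉ F '' K := by
    rintro ⟨z, hz, hzw⟩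
    exact Set.disjoint_left.1 hdis ⟨e₁, h1, rfl⟩ ⟨z, hfr hz, hzw⟩
  obtain ⟨r, hr, hball⟩ := Metric.isOpen_iff.1 (hKc.image hF).isClosed.isOpen_compl w₀ hw0K
  have hKr : ∀ z ∈ K, r ≤ ‖F z - w₀‖ := by
    intro z hz
    by_contra h
    push Not at h
    exact hball (by simpa [dist_eq_norm] using h) ⟨z, hz, rfl⟩
  -- the two auxiliary points
  have hn1 : U ∩ {z | ‖F z - w₀‖ < r / 4} ∈ 𝓝 e₁ := by
    refine inter_mem (hUo.mem_nhds hU1) ((isOpen_lt (by fun_prop) continuous_const).mem_nhds ?_)
    change ‖F e₁ - w₀‖ < r / 4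
    rw [hw₀, sub_self, norm_zero]; positivity
  obtain ⟨a', ha'E, ha'U, ha'w⟩ := hde.inter_nhds_nonempty hn1
  have hn2 : (closure U)ᶜ ∩ {z | ‖F z - w₀‖ < r / 4} ∈ 𝓝 e₂ := by
    refine inter_mem (isClosed_closure.isOpen_compl.mem_nhds hU2)
      ((isOpen_lt (by fun_prop) continuous_const).mem_nhds ?_)
    change ‖F e₂ - w₀‖ < r / 4
    rw [← h12, sub_self, norm_zero]; positivity
  obtain ⟨a'', ha''E, ha''U, ha''w⟩ := hde.inter_nhds_nonempty hn2
  simp only [mem_ofPred_eq] at ha'w ha''w
  set w' := F a' with hw'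
  set w'' := F a'' with hw''
  have honly : ∀ {b w : ℂ}, b ∈ Eᶜ → w = F b → ∀ z, F z = w → z = b := by
    intro b w hb hwb z hz
    by_cases hzE : z ∈ E
    · exact absurd (⟨b, hb, by rw [hz, hwb]⟩ : F z ∈ F '' Eᶜ) (fun h =>
        Set.disjoint_left.1 hdis ⟨z, hzE, rfl⟩ h)
    · exact hinj hzE hb (hz.trans hwb)
  have ho' := honly ha'E hw'
  have ho'' := honly ha''E hw''
  -- factor `F - w'`
  obtain ⟨s, M, hMc, hM0, hM⟩ := exists_factor hEo {a'} (fun z => F z - w')
    (hF.sub continuous_const) (hd.sub_const w')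
    (fun z hz => Finset.mem_singleton.2 (ho' z (sub_eq_zero.1 hz)))
    (fun z hz => by rw [Finset.mem_singleton.1 hz]; exact ha'E)
  set P : ℂ → ℂ := fun z => (s.map (fun a => z - a)).prod with hP
  have hPc : Continuous P := by
    have : P = fun z => (s.map (fun a => z - a)).prod := rfl
    rw [this]
    refine continuous_multiset_prod s (f := fun a z => z - a) (fun a _ => by fun_prop)
  have hP0 : ∀ z, P z = 0 → z = a' := by
    intro z hz
    apply ho'
    have h3 : F z - w' = P z * M z := hM z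
    rw [hz, zero_mul] at h3
    exact sub_eq_zero.1 h3
  set n := Multiset.card s with hn
  have hn0 : n ≠ 0 := by
    intro h
    have h3 : F a' - w' = P a' * M a' := hM a'
    have h4 : P a' = 1 := by rw [hP]; simp [Multiset.card_eq_zero.1 h]
    rw [h4, sub_self, one_mul] at h3
    exact hM0 a' h3.symm
  -- the ratio on the frontier
  have hratio : ∀ z ∈ K, (F z - w') / (F z - w'') ∈ Complex.slitPlane := by
    intro z hz
    have h3 := hKr z hz
    have h4 : 3 / 4 * r < ‖F z - w''‖ := by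
      have : ‖F z - w₀‖ ≤ ‖F z - w''‖ + ‖w'' - w₀‖ := by
        calc ‖F z - w₀‖ = ‖(F z - w'') + (w'' - w₀)‖ := by congr 1; ring
          _ ≤ _ := norm_add_le _ _
      linarith
    have h5 : F z - w'' ≠ 0 := by
      intro h; rw [h, norm_zero] at h4; linarith
    have h6 : ‖w'' - w'‖ < r / 2 := by
      calc ‖w'' - w'‖ = ‖(w'' - w₀) - (w' - w₀)‖ := by congr 1; ring
        _ ≤ ‖w'' - w₀‖ + ‖w' - w₀‖ := norm_sub_le _ _
        _ < r / 2 := by linarith
    have h7 : (F z - w') / (F z - w'') - 1 = (w'' - w') / (F z - w'') := by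
      field_simp; ring
    have h8 : ‖(w'' - w') / (F z - w'')‖ < 1 := by
      rw [norm_div, div_lt_one (by linarith [norm_pos_iff.2 h5])]
      linarith
    have h9 := Complex.mem_slitPlane_of_norm_lt_one h8
    rw [← h7] at h9
    have e : 1 + ((F z - w') / (F z - w'') - 1) = (F z - w') / (F z - w'') := by ring
    rwa [e] at h9
  have hw''K : ∀ z ∈ closure U, F z - w'' ≠ 0 := by
    intro z hz h
    have := ho'' z (sub_eq_zero.1 h)
    rw [this] at hz
    exact ha''U hz
  have hℓc : ContinuousOn (fun z => Complex.log ((F z - w') / (F z - w''))) K := by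
    intro z hz
    have hca : ContinuousAt (fun z => (F z - w') / (F z - w'')) z :=
      (hF.sub continuous_const).continuousAt.div (hF.sub continuous_const).continuousAt
        (hw''K z (frontier_subset_closure hz))
    exact (hca.clog (hratio z hz)).continuousWithinAt
  obtain ⟨T, hT⟩ := ContinuousMap.exists_restrict_eq (Y := ℂ) (isClosed_frontier (s := U))
    ⟨K.domRestrict (fun z => Complex.log ((F z - w') / (F z - w''))), hℓc.domRestrict⟩
  have hTK : ∀ z ∈ K, T z = Complex.log ((F z - w') / (F z - w'')) := by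
    intro z hz
    have h3 := congrArg (fun (f : C(K, ℂ)) => f ⟨z, hz⟩) hT
    exact h3
  -- the glued function
  set Q : ℂ → ℂ := (closure U).piecewise (fun z => M z / (F z - w''))
    (fun z => Complex.exp (T z) / P z) with hQ
  have hPU : ∀ z ∉ U, P z ≠ 0 := by
    intro z hz h
    exact hz (hP0 z h ▸ ha'U)
  have hQc : Continuous Q := by
    refine continuous_piecewise ?_ ?_ ?_
    · intro z hz
      have hzK : z ∈ K := frontier_closure_subset hz
      have h3 : F z - w' = P z * M z := hM z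
      have h4 : (F z - w') / (F z - w'') ≠ 0 := Complex.slitPlane_ne_zero (hratio z hzK)
      have h5 := hw''K z (frontier_subset_closure hzK)
      have h6 : P z ≠ 0 := by
        intro h
        rw [h, zero_mul] at h3
        rw [h3, zero_div] at h4
        exact h4 rfl
      rw [hTK z hzK, Complex.exp_log h4, h3]
      field_simp
    · rw [closure_closure]
      exact hMc.continuousOn.div (hF.sub continuous_const).continuousOn hw''K
    · refine ContinuousOn.div (by fun_prop) hPc.continuousOn ?_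
      intro z hz
      apply hPU
      intro hzU
      have : (U ∩ (closure U)ᶜ).Nonempty := mem_closure_iff.1 hz U hUo hzU
      obtain ⟨y, hy1, hy2⟩ := this
      exact hy2 (subset_closure hy1)
  have hQ0 : ∀ z, Q z ≠ 0 := by
    intro z
    by_cases hz : z ∈ closure U
    · rw [hQ, piecewise_eq_of_mem _ _ _ hz]
      exact div_ne_zero (hM0 z) (hw''K z hz)
    · rw [hQ, piecewise_eq_of_notMem _ _ _ hz]
      exact div_ne_zero (Complex.exp_ne_zero _) (hPU z (fun h => hz (subset_closure h)))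
  obtain ⟨L, hLc, hL⟩ := Complex.exists_continuousOn_eqOn_exp_comp
    Helper24.CH.isSimplyConnected_univ' isOpen_univ (g := Q) hQc.continuousOn (by
      rintro ⟨z, -, hz⟩
      exact hQ0 z hz)
  have hz0 : ∀ᶠ z in cocompact ℂ, z ∈ ({0} : Set ℂ)ᶜ := isCompact_singleton.compl_mem_cocompact
  have hslit : ∀ᶠ z in cocompact ℂ, P z / z ^ n ∈ Complex.slitPlane :=
    (tendsto_prod_div s).eventually (Complex.isOpen_slitPlane.mem_nhds Complex.one_mem_slitPlane)
  have hUc : IsCompact (closure U) := Metric.isCompact_of_isClosed_isBounded isClosed_closure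
    hUb.closure
  obtain ⟨R₂, hR₂⟩ := Helper24.CH.eventually_cocompact_norm
    ((hslit.and hz0).and hUc.compl_mem_cocompact)
  set R := max R₂ 1 with hR
  have hR1 : 0 < R := lt_of_lt_of_le zero_lt_one (le_max_right _ _)
  have hgood : ∀ z : ℂ, ‖z‖ = R → (P z / z ^ n ∈ Complex.slitPlane ∧ z ≠ 0) ∧ z ∉ closure U := by
    intro z hz
    exact hR₂ z (by rw [hz]; exact le_max_left _ _)
  apply hn0
  refine no_pow_log_on_circle hR1 (n := n) (M := fun z => T z - L z - Complex.log (P z / z ^ n))
    ?_ ?_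
  · refine ((T.continuous.continuousOn).sub (hLc.mono (subset_univ _))).sub ?_
    intro z hz
    have hz' : ‖z‖ = R := hz
    have hz0 := (hgood z hz').1.2
    have hca : ContinuousAt (fun z => P z / z ^ n) z :=
      hPc.continuousAt.div (by fun_prop) (pow_ne_zero _ hz0)
    exact (hca.clog (hgood z hz').1.1).continuousWithinAt
  · intro z hz
    have hz0 := (hgood z hz).1.2
    have g2 : P z / z ^ n ≠ 0 := Complex.slitPlane_ne_zero (hgood z hz).1.1
    have hPz : P z ≠ 0 := fun h => g2 (by rw [h, zero_div])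
    have e1 : Complex.exp (L z) = Q z := hL (mem_univ z)
    have e2 : Q z = Complex.exp (T z) / P z := by
      rw [hQ, piecewise_eq_of_notMem _ _ _ (hgood z hz).2]
    rw [Complex.exp_sub, Complex.exp_sub, e1, e2, Complex.exp_log g2]
    have := Complex.exp_ne_zero (T z)
    field_simp

end Helper3.CR
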