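import Pool.Agent.Helper3.CR.Ellipse
import Pool.Agent.Helper3.CR.TD

set_option autoImplicit false

open Filter Topology Set MeasureTheory ComplexConjugate

namespace Helper3.CR

open Helper24.CH

lemma vol_image_le {F : ℂ → ℂ} {S : Set ℂ} (hS : MeasurableSet S)
    (hf : ∀ z ∈ S, DifferentiableAt ℂ F z) :
    volume (F '' S) ≤ ∫⁻ z in S, ENNReal.ofReal (‖deriv F z‖ ^ 2) := by
  have hd : ∀ z ∈ S, HasFDerivWithinAt F
      ((ContinuousLinearMap.toSpanSingleton ℂ (deriv F z)).restrictScalars ℝ) S z := by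
    intro z hz
    exact ((hf z hz).hasDerivAt.hasFDerivAt.restrictScalars ℝ).hasFDerivWithinAt (s := S)
  refine (addHaar_image_le_lintegral_abs_det_fderiv volume hS hd).trans_eq ?_
  refine setLIntegral_congr_fun hS (fun z hz => ?_)
  congr 1
  have : ((ContinuousLinearMap.toSpanSingleton ℂ (deriv F z)).restrictScalars ℝ).det =
      ‖deriv F z‖ ^ 2 := by
    have e : (((ContinuousLinearMap.toSpanSingleton ℂ (deriv F z)).restrictScalars ℝ :
        ℂ →L[ℝ] ℂ) : ℂ →ₗ[ℝ] ℂ) = TL (deriv F z) 0 := by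
      refine LinearMap.ext (fun w => ?_)
      simp [TL_apply, mul_comm]
    change LinearMap.det (((ContinuousLinearMap.toSpanSingleton ℂ (deriv F z)).restrictScalars ℝ :
        ℂ →L[ℝ] ℂ) : ℂ →ₗ[ℝ] ℂ) = _
    rw [e, det_TL]; simp
  rw [this, abs_of_nonneg (by positivity)]

lemma vol_union {F : ℂ → ℂ} (hF : Continuous F) {E : Set ℂ} (hE : IsCompact E)
    (hd : DifferentiableOn ℂ F Eᶜ) (hs : Function.Surjective F) (R : ℝ)
    (hi : IntegrableOn (fun z => ‖deriv F z‖ ^ 2) (Metric.ball (0:ℂ) R \ E)) :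
    (volume (F '' (Metric.ball (0:ℂ) R \ E) ∪ (F '' Eᶜ)ᶜ)).toReal ≤
      (∫ z in Metric.ball (0:ℂ) R \ E, ‖deriv F z‖ ^ 2) + (volume ((F '' Eᶜ)ᶜ)).toReal ∧
    (InjOn F Eᶜ → (volume (F '' (Metric.ball (0:ℂ) R \ E) ∪ (F '' Eᶜ)ᶜ)).toReal =
      (∫ z in Metric.ball (0:ℂ) R \ E, ‖deriv F z‖ ^ 2) + (volume ((F '' Eᶜ)ᶜ)).toReal) := by
  have hmeas : MeasurableSet (Metric.ball (0:ℂ) R \ E) :=
    Metric.isOpen_ball.measurableSet.diff hE.isClosed.measurableSet
  have hdat : ∀ z ∈ Metric.ball (0:ℂ) R \ E, DifferentiableAt ℂ F z := fun z hz =>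
    hd.differentiableAt (hE.isClosed.isOpen_compl.mem_nhds hz.2)
  have hfinO : volume ((F '' Eᶜ)ᶜ) ≠ ⊤ :=
    ne_top_of_le_ne_top (hE.image hF).measure_lt_top.ne (measure_mono (omit_subset hs E))
  have hfinI : volume (F '' (Metric.ball (0:ℂ) R \ E)) ≠ ⊤ := by
    have hcpt : IsCompact (F '' Metric.closedBall (0:ℂ) R) := (isCompact_closedBall 0 R).image hF
    exact ne_top_of_le_ne_top hcpt.measure_lt_top.ne
      (measure_mono (image_mono (sdiff_subset.trans Metric.ball_subset_closedBall)))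
  have hnn : 0 ≤ᵐ[volume.restrict (Metric.ball (0:ℂ) R \ E)] fun z => ‖deriv F z‖ ^ 2 :=
    ae_of_all _ (fun z => by positivity)
  constructor
  · have h1 : (volume (F '' (Metric.ball (0:ℂ) R \ E))).toReal ≤
        ∫ z in Metric.ball (0:ℂ) R \ E, ‖deriv F z‖ ^ 2 := by
      have h2 := vol_image_le hmeas hdat
      rw [← ofReal_integral_eq_lintegral_ofReal hi hnn] at h2
      exact ENNReal.toReal_le_of_le_ofReal (integral_nonneg (fun z => by positivity)) h2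
    have h3 : (volume (F '' (Metric.ball (0:ℂ) R \ E) ∪ (F '' Eᶜ)ᶜ)).toReal ≤
        (volume (F '' (Metric.ball (0:ℂ) R \ E))).toReal + (volume ((F '' Eᶜ)ᶜ)).toReal := by
      rw [← ENNReal.toReal_add hfinI hfinO]
      exact ENNReal.toReal_mono (ENNReal.add_ne_top.2 ⟨hfinI, hfinO⟩) (measure_union_le _ _)
    linarith
  · intro hinj
    have hinj' : InjOn F (Metric.ball (0:ℂ) R \ E) := hinj.mono (fun z hz => hz.2)
    have h1 := (integrableOn_deriv_sq hmeas hdat hinj' hfinI).2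
    have hms : MeasurableSet (F '' (Metric.ball (0:ℂ) R \ E)) :=
      hmeas.image_of_continuousOn_injOn hF.continuousOn hinj'
    have hdis : Disjoint ((F '' Eᶜ)ᶜ) (F '' (Metric.ball (0:ℂ) R \ E)) := by
      rw [Set.disjoint_left]
      rintro w hw ⟨z, hz, hzw⟩
      exact hw ⟨z, hz.2, hzw⟩
    rw [union_comm, measure_union hdis hms, ENNReal.toReal_add hfinO hfinI, h1, add_comm]

lemma seq_algebra (s X : ℂ) (Jf Jg Jh : ℝ) (hX : Jh = Jf - 2 * (conj (1:ℂ) * X).re + ‖(1:ℂ)‖ ^ 2 * Jg) :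
    ‖s‖ ^ 2 * Jf - 2 * (conj (-(1 - s)) * (s * X)).re + ‖-(1 - s)‖ ^ 2 * Jg =
      s.re * Jf + (1 - s.re) * Jg - (s.re - ‖s‖ ^ 2) * Jh - 2 * X.im * s.im := by
  have h1 : ‖s‖ ^ 2 = s.re ^ 2 + s.im ^ 2 := by
    rw [← Complex.normSq_eq_norm_sq, Complex.normSq_apply]; ring
  have h2 : ‖-(1 - s)‖ ^ 2 = (1 - s.re) ^ 2 + s.im ^ 2 := by
    rw [norm_neg, ← Complex.normSq_eq_norm_sq, Complex.normSq_apply]
    simp only [Complex.sub_re, Complex.sub_im, Complex.one_re, Complex.one_im]; ring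
  rw [h1, h2, hX]
  simp only [map_neg, map_sub, map_one, Complex.mul_re, Complex.mul_im, Complex.neg_re,
    Complex.neg_im, Complex.sub_re, Complex.sub_im, Complex.one_re, Complex.one_im,
    Complex.conj_re, Complex.conj_im, norm_one]
  ring

theorem mix_area {E : Set ℂ} (hE : IsCompact E) {f g : ℂ ≃ₜ ℂ}
    (hf : DifferentiableOn ℂ f Eᶜ) (hg : DifferentiableOn ℂ g Eᶜ)
    (hfg : Tendsto (fun z => f z / g z) (cocompact ℂ) (𝓝 1)) :
    IntegrableOn (fun z => ‖deriv f z - deriv g z‖ ^ 2) Eᶜ ∧ ∃ b : ℝ, ∀ s : ℂ,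
      (∃ α : ℂ, α ≠ 0 ∧ Tendsto (fun z => (s * f z + (1 - s) * g z) / z) (cocompact ℂ) (𝓝 α)) ∧
      s.re * (volume (f '' E)).toReal + (1 - s.re) * (volume (g '' E)).toReal +
        (s.re - ‖s‖ ^ 2) * (∫ z in Eᶜ, ‖deriv f z - deriv g z‖ ^ 2) + b * s.im ≤
        (volume (((fun z => s * f z + (1 - s) * g z) '' Eᶜ)ᶜ)).toReal ∧
      (InjOn (fun z => s * f z + (1 - s) * g z) Eᶜ →
        (volume (((fun z => s * f z + (1 - s) * g z) '' Eᶜ)ᶜ)).toReal =
        s.re * (volume (f '' E)).toReal + (1 - s.re) * (volume (g '' E)).toReal +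
        (s.re - ‖s‖ ^ 2) * (∫ z in Eᶜ, ‖deriv f z - deriv g z‖ ^ 2) + b * s.im) := by
  obtain ⟨α, β, γ, C, hα, hC, hexpf⟩ := expansion hE hf
  obtain ⟨α', β', γ', C', hα', hC', hexpg⟩ := expansion hE hg
  have limf := tendsto_div_of_exp hexpf
  have limg := tendsto_div_of_exp hexpg
  have hz0 : ∀ᶠ z in cocompact ℂ, z ∈ ({0} : Set ℂ)ᶜ := isCompact_singleton.compl_mem_cocompact
  have eαα : α' = α := by
    have h1 : Tendsto (fun z => (f z / z) / (g z / z)) (cocompact ℂ) (𝓝 (α / α')) :=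
      limf.div limg hα'
    have h2 : Tendsto (fun z => f z / g z) (cocompact ℂ) (𝓝 (α / α')) := by
      refine h1.congr' ?_
      filter_upwards [hz0] with z hz
      have hz' : z ≠ 0 := hz
      rw [div_div_div_cancel_right₀ hz']
    have h3 := tendsto_nhds_unique hfg h2
    exact ((div_eq_one_iff_eq hα').1 h3.symm).symm
  rw [eαα] at hexpg limg hα'
  -- area asymptotics of f and g
  obtain ⟨αf, hαf, lαf, Af⟩ := area_asymp hE hf
  obtain ⟨αg, hαg, lαg, Ag⟩ := area_asymp hE hg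
  have e1 : αf = α := tendsto_nhds_unique lαf limf
  have e2 : αg = α := tendsto_nhds_unique lαg limg
  rw [e1] at Af
  rw [e2] at Ag
  set F : ℂ → ℂ → ℂ := fun s z => s * f z + (1 - s) * g z with hFdef
  have hFc : ∀ s, Continuous (F s) := fun s =>
    (continuous_const.mul f.continuous).add (continuous_const.mul g.continuous)
  have hFd : ∀ s, DifferentiableOn ℂ (F s) Eᶜ := fun s => (hf.const_mul s).add (hg.const_mul (1 - s))
  have hexp : ∀ s, ∀ᶠ z in cocompact ℂ, ‖F s z - (α * z + (s * β + (1 - s) * β') +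
      (s * γ + (1 - s) * γ') / z)‖ ≤ (‖s‖ * C + ‖1 - s‖ * C' + 1) / ‖z‖ ^ 2 := by
    intro s
    filter_upwards [hexpf, hexpg] with z h1 h2
    have e : F s z - (α * z + (s * β + (1 - s) * β') + (s * γ + (1 - s) * γ') / z) =
        s * (f z - (α * z + β + γ / z)) + (1 - s) * (g z - (α * z + β' + γ' / z)) := by
      simp only [hFdef]; ring
    rw [e]
    calc ‖s * (f z - (α * z + β + γ / z)) + (1 - s) * (g z - (α * z + β' + γ' / z))‖
        ≤ ‖s‖ * (C / ‖z‖ ^ 2) + ‖1 - s‖ * (C' / ‖z‖ ^ 2) := by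
          refine (norm_add_le _ _).trans ?_
          rw [norm_mul, norm_mul]
          gcongr
      _ ≤ (‖s‖ * C + ‖1 - s‖ * C' + 1) / ‖z‖ ^ 2 := by
          rw [add_div, add_div, mul_div_assoc, mul_div_assoc]
          have : 0 ≤ 1 / ‖z‖ ^ 2 := by positivity
          linarith
  have hCs : ∀ s : ℂ, 0 < ‖s‖ * C + ‖1 - s‖ * C' + 1 := fun s => by positivity
  have hlim : ∀ s, Tendsto (fun z => F s z / z) (cocompact ℂ) (𝓝 α) := fun s =>
    tendsto_div_of_exp (hexp s)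
  have hsurj : ∀ s, Function.Surjective (F s) := fun s => surjective_of_tendsto (hFc s) hα (hlim s)
  -- integrals on discs
  have md : ∀ k : ℂ → ℂ, Measurable (deriv k) := fun k => measurable_deriv k
  obtain ⟨R₀, hR₀⟩ := hE.isBounded.subset_ball (0:ℂ)
  set Jf : ℝ → ℝ := fun R => ∫ z in Metric.ball (0:ℂ) R \ E, ‖deriv f z‖ ^ 2 with hJf
  set Jg : ℝ → ℝ := fun R => ∫ z in Metric.ball (0:ℂ) R \ E, ‖deriv g z‖ ^ 2 with hJg
  set Jh : ℝ → ℝ := fun R => ∫ z in Metric.ball (0:ℂ) R \ E, ‖deriv f z - deriv g z‖ ^ 2 with hJh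
  set X : ℝ → ℂ := fun R => ∫ z in Metric.ball (0:ℂ) R \ E, deriv f z * conj (deriv g z) with hX
  set vf := (volume (f '' E)).toReal with hvf
  set vg := (volume (g '' E)).toReal with hvg
  have hder : ∀ s, ∀ z ∈ Eᶜ, deriv (F s) z = s * deriv f z - (-(1 - s)) * deriv g z := by
    intro s z hz
    have hn := hE.isClosed.isOpen_compl.mem_nhds hz
    have : F s = fun z => s * f z + (1 - s) * g z := rfl
    rw [this, deriv_fun_add ((hf.differentiableAt hn).const_mul s)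
      ((hg.differentiableAt hn).const_mul (1 - s)), deriv_const_mul _ (hf.differentiableAt hn),
      deriv_const_mul _ (hg.differentiableAt hn)]
    ring
  have key : ∀ R, R₀ ≤ R →
      Jf R = (volume (f '' Metric.ball (0:ℂ) R)).toReal - vf ∧
      Jg R = (volume (g '' Metric.ball (0:ℂ) R)).toReal - vg ∧
      IntegrableOn (fun z => ‖deriv f z - deriv g z‖ ^ 2) (Metric.ball (0:ℂ) R \ E) ∧
      ∀ s, IntegrableOn (fun z => ‖deriv (F s) z‖ ^ 2) (Metric.ball (0:ℂ) R \ E) ∧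
        ∫ z in Metric.ball (0:ℂ) R \ E, ‖deriv (F s) z‖ ^ 2 =
          s.re * Jf R + (1 - s.re) * Jg R - (s.re - ‖s‖ ^ 2) * Jh R - 2 * (X R).im * s.im := by
    intro R hR
    have hER : E ⊆ Metric.ball (0:ℂ) R := hR₀.trans (Metric.ball_subset_ball hR)
    obtain ⟨if', sf⟩ := image_ball_split hE hf hER
    obtain ⟨ig', sg⟩ := image_ball_split hE hg hER
    have hmeas : MeasurableSet (Metric.ball (0:ℂ) R \ E) :=
      Metric.isOpen_ball.measurableSet.diff hE.isClosed.measurableSet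
    obtain ⟨i1, q1⟩ := integral_quad (md f) (md g) if' ig' 1
    simp only [one_mul] at i1
    have q1' : Jh R = Jf R - 2 * (conj (1:ℂ) * X R).re + ‖(1:ℂ)‖ ^ 2 * Jg R := by
      have : (fun z => ‖deriv f z - 1 * deriv g z‖ ^ 2) = fun z => ‖deriv f z - deriv g z‖ ^ 2 := by
        funext z; rw [one_mul]
      rw [this] at q1
      exact q1
    refine ⟨by simp only [hJf]; rw [sf]; ring, by simp only [hJg]; rw [sg]; ring, i1, fun s => ?_⟩
    have isf : IntegrableOn (fun z => ‖s * deriv f z‖ ^ 2) (Metric.ball (0:ℂ) R \ E) := by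
      have : (fun z => ‖s * deriv f z‖ ^ 2) = fun z => ‖s‖ ^ 2 * ‖deriv f z‖ ^ 2 := by
        funext z; rw [norm_mul, mul_pow]
      rw [this]; exact if'.const_mul _
    obtain ⟨i2, q2⟩ := integral_quad (u := fun z => s * deriv f z) ((md f).const_mul s) (md g)
      isf ig' (-(1 - s))
    have c1 : ∀ z ∈ Metric.ball (0:ℂ) R \ E, ‖deriv (F s) z‖ ^ 2 =
        ‖s * deriv f z - (-(1 - s)) * deriv g z‖ ^ 2 := fun z hz => by rw [hder s z hz.2]
    refine ⟨(integrableOn_congr_fun c1 hmeas).2 i2, ?_⟩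
    rw [setIntegral_congr_fun hmeas c1, q2]
    have c2 : ∫ z in Metric.ball (0:ℂ) R \ E, ‖s * deriv f z‖ ^ 2 = ‖s‖ ^ 2 * Jf R := by
      have : (fun z => ‖s * deriv f z‖ ^ 2) = fun z => ‖s‖ ^ 2 * ‖deriv f z‖ ^ 2 := by
        funext z; rw [norm_mul, mul_pow]
      rw [this, integral_const_mul]
    have c3 : ∫ z in Metric.ball (0:ℂ) R \ E, s * deriv f z * conj (deriv g z) = s * X R := by
      have : (fun z => s * deriv f z * conj (deriv g z)) = fun z => s * (deriv f z * conj (deriv g z)) := by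
        funext z; rw [mul_assoc]
      rw [this, integral_const_mul]
    rw [c2, c3]
    exact seq_algebra s (X R) (Jf R) (Jg R) (Jh R) q1'
  have tf : Tendsto (fun R => Jf R - Real.pi * ‖α‖ ^ 2 * R ^ 2) atTop (𝓝 (-vf)) := by
    have h1 := Af.add_const (-vf)
    rw [zero_add] at h1
    refine h1.congr' ?_
    filter_upwards [eventually_ge_atTop R₀] with R hR
    rw [(key R hR).1]; ring
  have tg : Tendsto (fun R => Jg R - Real.pi * ‖α‖ ^ 2 * R ^ 2) atTop (𝓝 (-vg)) := by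
    have h1 := Ag.add_const (-vg)
    rw [zero_add] at h1
    refine h1.congr' ?_
    filter_upwards [eventually_ge_atTop R₀] with R hR
    rw [(key R hR).2.1]; ring
  -- lower bound for every s
  have low : ∀ s, ∃ m : ℝ → ℝ, Tendsto m atTop (𝓝 0) ∧ (∀ᶠ R : ℝ in atTop,
      Real.pi * ‖α‖ ^ 2 * R ^ 2 + m R ≤ (s.re * Jf R + (1 - s.re) * Jg R -
        (s.re - ‖s‖ ^ 2) * Jh R - 2 * (X R).im * s.im) + (volume ((F s '' Eᶜ)ᶜ)).toReal) ∧
      (InjOn (F s) Eᶜ → Tendsto (fun R : ℝ => (s.re * Jf R + (1 - s.re) * Jg R -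
        (s.re - ‖s‖ ^ 2) * Jh R - 2 * (X R).im * s.im) + (volume ((F s '' Eᶜ)ᶜ)).toReal -
          Real.pi * ‖α‖ ^ 2 * R ^ 2) atTop (𝓝 0)) := by
    intro s
    obtain ⟨m, hm, h1, h2⟩ := area_low_up (hFc s) hE (hFd s) hα (hCs s) (hexp s)
    refine ⟨m, hm, ?_, fun hi => ?_⟩
    · filter_upwards [h1, eventually_ge_atTop R₀] with R h3 hR
      obtain ⟨i1, q1⟩ := (key R hR).2.2.2 s
      have h4 := (vol_union (hFc s) hE (hFd s) (hsurj s) R i1).1
      rw [q1] at h4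
      exact h3.trans h4
    · refine (h2 hi).congr' ?_
      filter_upwards [eventually_ge_atTop R₀] with R hR
      obtain ⟨i1, q1⟩ := (key R hR).2.2.2 s
      have h4 := (vol_union (hFc s) hE (hFd s) (hsurj s) R i1).2 hi
      rw [q1] at h4
      rw [h4]
  -- boundedness of Jh
  have bdh : ∃ B : ℝ, ∀ᶠ R in atTop, Jh R ≤ B := by
    obtain ⟨m, hm, h1, -⟩ := low (1/2)
    have t1 : Tendsto (fun R => 4 * ((1/2) * (Jf R - Real.pi * ‖α‖ ^ 2 * R ^ 2) +
        (1/2) * (Jg R - Real.pi * ‖α‖ ^ 2 * R ^ 2) + (volume ((F (1/2) '' Eᶜ)ᶜ)).toReal - m R))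
        atTop (𝓝 (4 * ((1/2) * (-vf) + (1/2) * (-vg) + (volume ((F (1/2) '' Eᶜ)ᶜ)).toReal - 0))) :=
      ((((tf.const_mul _).add (tg.const_mul _)).add_const _).sub hm).const_mul 4
    refine ⟨4 * ((1/2) * (-vf) + (1/2) * (-vg) + (volume ((F (1/2) '' Eᶜ)ᶜ)).toReal - 0) + 1, ?_⟩
    filter_upwards [h1, t1.eventually_lt_const (lt_add_one _)] with R h2 h3
    have e3 : ((1/2 : ℂ)).re = 1/2 := by norm_num
    have e4 : ((1/2 : ℂ)).im = 0 := by norm_num
    have e5 : ‖(1/2 : ℂ)‖ = 1/2 := by norm_num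
    rw [e3, e4, e5] at h2
    have h4 : Jh R ≤ 4 * ((1/2) * (Jf R - Real.pi * ‖α‖ ^ 2 * R ^ 2) +
        (1/2) * (Jg R - Real.pi * ‖α‖ ^ 2 * R ^ 2) + (volume ((F (1/2) '' Eᶜ)ᶜ)).toReal - m R) := by
      linarith
    linarith
  obtain ⟨B, hB⟩ := bdh
  have hcov : AECover (volume.restrict Eᶜ) atTop (fun R : ℝ => Metric.ball (0:ℂ) R) :=
    aecover_ball tendsto_id
  have hres : ∀ R : ℝ, (volume.restrict Eᶜ).restrict (Metric.ball (0:ℂ) R) =
      volume.restrict (Metric.ball (0:ℂ) R \ E) := by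
    intro R
    rw [Measure.restrict_restrict measurableSet_ball, ← sdiff_eq]
  have hS' : (fun R : ℝ => ∫ z in Metric.ball (0:ℂ) R, ‖deriv f z - deriv g z‖ ^ 2
      ∂(volume.restrict Eᶜ)) = Jh := by
    funext R
    rw [hres]
  have hio : ∀ R : ℝ, IntegrableOn (fun z => ‖deriv f z - deriv g z‖ ^ 2)
      (Metric.ball (0:ℂ) R) (volume.restrict Eᶜ) := by
    intro R
    have h1 := (key (max R R₀) (le_max_right _ _)).2.2.1
    unfold IntegrableOn
    rw [hres]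
    exact h1.mono_set (sdiff_subset_sdiff_left (Metric.ball_subset_ball (le_max_left _ _)))
  have hnn : ∀ᵐ z ∂(volume.restrict Eᶜ), 0 ≤ ‖deriv f z - deriv g z‖ ^ 2 :=
    ae_of_all _ (fun z => by positivity)
  have hint : IntegrableOn (fun z => ‖deriv f z - deriv g z‖ ^ 2) Eᶜ := by
    refine hcov.integrable_of_integral_bounded_of_nonneg_ae B hio hnn ?_
    filter_upwards [hB] with R hR
    exact (le_of_eq (congrFun hS' R)).trans hR
  set I := ∫ z in Eᶜ, ‖deriv f z - deriv g z‖ ^ 2 with hI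
  have th : Tendsto Jh atTop (𝓝 I) := by
    have := hcov.integral_tendsto_of_countably_generated hint
    rwa [hS'] at this
  -- boundedness of the imaginary part
  have bdi : ∃ B : ℝ, ∀ᶠ R in atTop, 2 * (X R).im ∈ Icc (-B) B := by
    obtain ⟨m, hm, h1, -⟩ := low Complex.I
    obtain ⟨m', hm', h1', -⟩ := low (-Complex.I)
    have t1 : Tendsto (fun R => (Jg R - Real.pi * ‖α‖ ^ 2 * R ^ 2) + Jh R +
        (volume ((F Complex.I '' Eᶜ)ᶜ)).toReal - m R) atTop
        (𝓝 (-vg + I + (volume ((F Complex.I '' Eᶜ)ᶜ)).toReal - 0)) :=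
      ((tg.add th).add_const _).sub hm
    have t2 : Tendsto (fun R => (Jg R - Real.pi * ‖α‖ ^ 2 * R ^ 2) + Jh R +
        (volume ((F (-Complex.I) '' Eᶜ)ᶜ)).toReal - m' R) atTop
        (𝓝 (-vg + I + (volume ((F (-Complex.I) '' Eᶜ)ᶜ)).toReal - 0)) :=
      ((tg.add th).add_const _).sub hm'
    set B₁ := -vg + I + (volume ((F Complex.I '' Eᶜ)ᶜ)).toReal - 0
    set B₂ := -vg + I + (volume ((F (-Complex.I) '' Eᶜ)ᶜ)).toReal - 0
    refine ⟨max (B₁ + 1) (B₂ + 1), ?_⟩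
    filter_upwards [h1, h1', t1.eventually_lt_const (lt_add_one _),
      t2.eventually_lt_const (lt_add_one _)] with R h2 h2' h3 h3'
    simp only [Complex.I_re, Complex.I_im, Complex.norm_I, Complex.neg_re, Complex.neg_im,
      norm_neg] at h2 h2'
    have m1 := le_max_left (B₁ + 1) (B₂ + 1)
    have m2 := le_max_right (B₁ + 1) (B₂ + 1)
    constructor
    · linarith
    · linarith
  obtain ⟨B', hB'⟩ := bdi
  -- an ultrafilter limit
  set 𝒰 : Ultrafilter ℝ := Ultrafilter.of atTop with h𝒰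
  have hle : (𝒰 : Filter ℝ) ≤ atTop := Ultrafilter.of_le atTop
  obtain ⟨b, -, hb⟩ : ∃ b ∈ Icc (-B') B', Tendsto (fun R => 2 * (X R).im) 𝒰 (𝓝 b) := by
    have h1 : (𝒰.map (fun R => 2 * (X R).im) : Filter ℝ) ≤ 𝓟 (Icc (-B') B') := by
      rw [le_principal_iff, Ultrafilter.coe_map]
      exact hle hB'
    exact isCompact_Icc.ultrafilter_le_nhds _ h1
  refine ⟨hint, b, fun s => ⟨⟨α, hα, hlim s⟩, ?_, fun hi => ?_⟩⟩
  · obtain ⟨m, hm, h1, -⟩ := low s
    have t1 : Tendsto (fun R => -(s.re * (Jf R - Real.pi * ‖α‖ ^ 2 * R ^ 2) +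
        (1 - s.re) * (Jg R - Real.pi * ‖α‖ ^ 2 * R ^ 2) - (s.re - ‖s‖ ^ 2) * Jh R -
          2 * (X R).im * s.im) + m R) 𝒰
        (𝓝 (-(s.re * (-vf) + (1 - s.re) * (-vg) - (s.re - ‖s‖ ^ 2) * I - b * s.im) + 0)) :=
      (((((tf.mono_left hle).const_mul _).add ((tg.mono_left hle).const_mul _)).sub
        ((th.mono_left hle).const_mul _)).sub (hb.mul_const _)).neg.add (hm.mono_left hle)
    have h2 : ∀ᶠ R in (𝒰 : Filter ℝ), -(s.re * (Jf R - Real.pi * ‖α‖ ^ 2 * R ^ 2) +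
        (1 - s.re) * (Jg R - Real.pi * ‖α‖ ^ 2 * R ^ 2) - (s.re - ‖s‖ ^ 2) * Jh R -
          2 * (X R).im * s.im) + m R ≤ (volume ((F s '' Eᶜ)ᶜ)).toReal := by
      filter_upwards [hle h1] with R hR
      have hR' : Real.pi * ‖α‖ ^ 2 * R ^ 2 + m R ≤ (s.re * Jf R + (1 - s.re) * Jg R -
        (s.re - ‖s‖ ^ 2) * Jh R - 2 * (X R).im * s.im) + (volume ((F s '' Eᶜ)ᶜ)).toReal := hR
      linarith
    have h3 := le_of_tendsto t1 h2
    linarith
  · obtain ⟨m, -, -, h1⟩ := low s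
    have h1 := h1 hi
    have t1 : Tendsto (fun R => (s.re * (Jf R - Real.pi * ‖α‖ ^ 2 * R ^ 2) +
        (1 - s.re) * (Jg R - Real.pi * ‖α‖ ^ 2 * R ^ 2) - (s.re - ‖s‖ ^ 2) * Jh R -
          2 * (X R).im * s.im) + (volume ((F s '' Eᶜ)ᶜ)).toReal) 𝒰
        (𝓝 ((s.re * (-vf) + (1 - s.re) * (-vg) - (s.re - ‖s‖ ^ 2) * I - b * s.im) +
          (volume ((F s '' Eᶜ)ᶜ)).toReal)) :=
      (((((tf.mono_left hle).const_mul _).add ((tg.mono_left hle).const_mul _)).sub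
        ((th.mono_left hle).const_mul _)).sub (hb.mul_const _)).add_const _
    have t2 : Tendsto (fun R => (s.re * (Jf R - Real.pi * ‖α‖ ^ 2 * R ^ 2) +
        (1 - s.re) * (Jg R - Real.pi * ‖α‖ ^ 2 * R ^ 2) - (s.re - ‖s‖ ^ 2) * Jh R -
          2 * (X R).im * s.im) + (volume ((F s '' Eᶜ)ᶜ)).toReal) 𝒰 (𝓝 0) := by
      refine (h1.mono_left hle).congr (fun R => ?_)
      ring
    have h3 := tendsto_nhds_unique t1 t2
    linarith

end Helper3.CR
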