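import Pool.Agent.Helper3.CR.Deg
import Mathlib.Analysis.Complex.Tietze

set_option autoImplicit false

open Filter Topology Set MeasureTheory

namespace Helper3.CR

lemma not_eventually_const {F : ℂ → ℂ} {E : Set ℂ} (hE : IsCompact E)
    (hd : DifferentiableOn ℂ F Eᶜ) (hc : IsPreconnected Eᶜ) {α : ℂ} (hα : α ≠ 0)
    (hlim : Tendsto (fun z => F z / z) (cocompact ℂ) (𝓝 α)) {a : ℂ} (ha : a ∈ Eᶜ) :
    ¬ ∀ᶠ z in 𝓝 a, F z = F a := by
  intro h
  have hEo : IsOpen Eᶜ := hE.isClosed.isOpen_compl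
  have han : AnalyticOnNhd ℂ F Eᶜ := hd.analyticOnNhd hEo
  have hEq : EqOn F (fun _ => F a) Eᶜ :=
    han.eqOn_of_preconnected_of_eventuallyEq (fun z _ => analyticAt_const) hc ha h
  have hinv : Tendsto (fun z : ℂ => z⁻¹) (cocompact ℂ) (𝓝 0) := by
    rw [← Metric.cobounded_eq_cocompact]
    exact tendsto_inv₀_cobounded
  have h1 : Tendsto (fun z : ℂ => F a * z⁻¹) (cocompact ℂ) (𝓝 0) := by
    simpa using hinv.const_mul (F a)
  have h2 : Tendsto (fun z => F z / z) (cocompact ℂ) (𝓝 0) := by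
    refine h1.congr' ?_
    filter_upwards [hE.compl_mem_cocompact] with z hz
    rw [hEq hz, div_eq_mul_inv]
  have : NeBot (cocompact ℂ) := inferInstance
  exact hα (tendsto_nhds_unique hlim h2)

/-- open images of neighbourhoods -/
lemma image_mem_nhds {F : ℂ → ℂ} {E : Set ℂ} (hE : IsCompact E)
    (hd : DifferentiableOn ℂ F Eᶜ) (hc : IsPreconnected Eᶜ) {α : ℂ} (hα : α ≠ 0)
    (hlim : Tendsto (fun z => F z / z) (cocompact ℂ) (𝓝 α)) {a : ℂ} (ha : a ∈ Eᶜ) {A : Set ℂ}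
    (hA : A ∈ 𝓝 a) : F '' A ∈ 𝓝 (F a) := by
  have hEo : IsOpen Eᶜ := hE.isClosed.isOpen_compl
  have han : AnalyticAt ℂ F a := hd.analyticAt (hEo.mem_nhds ha)
  exact (han.eventually_constant_or_nhds_le_map_nhds.resolve_left
    (not_eventually_const hE hd hc hα hlim ha)) (image_mem_map hA)

theorem inj_of_interior_empty {F : ℂ → ℂ} (hF : Continuous F) {E : Set ℂ} (hE : IsCompact E)
    (hd : DifferentiableOn ℂ F Eᶜ) (hc : IsPreconnected Eᶜ) (hde : Dense Eᶜ) {α : ℂ} (hα : α ≠ 0)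
    (hlim : Tendsto (fun z => F z / z) (cocompact ℂ) (𝓝 α)) (hint : interior (F '' E) = ∅) :
    InjOn F Eᶜ ∧ Disjoint (F '' E) (F '' Eᶜ) := by
  have hEo : IsOpen Eᶜ := hE.isClosed.isOpen_compl
  have hdens : Dense (F '' E)ᶜ := interior_eq_empty_iff_dense_compl.1 hint
  have hinj : InjOn F Eᶜ := by
    intro a ha b hb hab
    by_contra hne
    obtain ⟨A, B, hAo, hBo, haA, hbB, hAB⟩ := t2_separation hne
    have h1 : F '' A ∈ 𝓝 (F a) := image_mem_nhds hE hd hc hα hlim ha (hAo.mem_nhds haA)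
    have h2 : F '' B ∈ 𝓝 (F a) := by
      rw [hab]; exact image_mem_nhds hE hd hc hα hlim hb (hBo.mem_nhds hbB)
    obtain ⟨w, hw, ⟨a', ha', e1⟩, ⟨b', hb', e2⟩⟩ := hdens.inter_nhds_nonempty (inter_mem h1 h2)
    have := unique_preimage hF hE hd hc hα hlim hw e1 e2
    exact Set.disjoint_left.1 hAB ha' (this ▸ hb')
  refine ⟨hinj, ?_⟩
  rw [Set.disjoint_left]
  rintro w ⟨e, he, rfl⟩ ⟨a, ha, hae⟩
  have hne : a ≠ e := fun h => ha (h ▸ he)
  obtain ⟨A, B, hAo, hBo, haA, heB, hAB⟩ := t2_separation hne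
  have h1 : F '' (A ∩ Eᶜ) ∈ 𝓝 (F e) := by
    rw [← hae]
    exact image_mem_nhds hE hd hc hα hlim ha ((hAo.inter hEo).mem_nhds ⟨haA, ha⟩)
  have h2 : F ⁻¹' (F '' (A ∩ Eᶜ)) ∩ B ∈ 𝓝 e := inter_mem (hF.continuousAt h1) (hBo.mem_nhds heB)
  obtain ⟨z, hz, ⟨⟨a', ha', e1⟩, hzB⟩⟩ := hde.inter_nhds_nonempty h2
  have := hinj ha'.2 hz e1
  exact Set.disjoint_left.1 hAB ha'.1 (this ▸ hzB)

theorem interior_empty_of_disjoint {F : ℂ → ℂ} (hF : Continuous F) {E : Set ℂ}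
    (hde : Dense Eᶜ) (hs : Function.Surjective F) (hdis : Disjoint (F '' E) (F '' Eᶜ)) :
    interior (F '' E) = ∅ := by
  by_contra h
  obtain ⟨w, hw⟩ := nonempty_iff_ne_empty.2 h
  obtain ⟨z, rfl⟩ := hs w
  have h1 : F ⁻¹' (interior (F '' E)) ∈ 𝓝 z := (isOpen_interior.preimage hF).mem_nhds hw
  obtain ⟨y, hy, hy2⟩ := hde.inter_nhds_nonempty h1
  exact Set.disjoint_left.1 hdis (interior_subset hy2) ⟨y, hy, rfl⟩

end Helper3.CR
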